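import Pool.Agent.MP_6aeaf9_an.H53.Basic

/-! Radial functions with a power bound at the origin. -/

namespace Pool.Agent.MP_6aeaf9_an.H21

open Set Filter Topology MeasureTheory intervalIntegral

/-- a sequence of functions, continuous on the open half line, with a common power bound -/
def Ub (R γ : ℝ) (z : ℕ → ℝ → ℝ) : Prop :=
  (∀ n, ContinuousOn (z n) (Ioi 0)) ∧ ∃ C, ∀ n, ∀ r ∈ Ioc 0 R, |z n r| ≤ C * r ^ γ

/-- one function, continuous on the open half line, with a power bound -/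
def Cb (R γ : ℝ) (y : ℝ → ℝ) : Prop := Ub R γ fun _ => y

variable {R γ δ : ℝ} {a b : ℕ → ℝ → ℝ} {y z p q : ℝ → ℝ} {m : ℕ}

theorem Ub.bd (h : Ub R γ a) : ∃ C, 0 ≤ C ∧ ∀ n, ∀ r ∈ Ioc 0 R, |a n r| ≤ C * r ^ γ := by
  obtain ⟨C, hC⟩ := h.2
  exact ⟨max C 0, le_max_right _ _, fun n r hr => (hC n r hr).trans
    (mul_le_mul_of_nonneg_right (le_max_left _ _) (Real.rpow_nonneg hr.1.le _))⟩

theorem Ub.mul (h : Ub R γ a) (h' : Ub R δ b) : Ub R (γ + δ) fun n r => a n r * b n r := by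
  obtain ⟨C, C0, hC⟩ := h.bd
  obtain ⟨D, -, hD⟩ := h'.bd
  refine ⟨fun n => (h.1 n).mul (h'.1 n), C * D, fun n r hr => ?_⟩
  rw [abs_mul, Real.rpow_add hr.1]
  calc _ ≤ (C * r ^ γ) * (D * r ^ δ) := mul_le_mul (hC n r hr) (hD n r hr) (abs_nonneg _)
        (mul_nonneg C0 (Real.rpow_nonneg hr.1.le _))
    _ = _ := by ring

theorem Ub.add (h : Ub R γ a) (h' : Ub R γ b) : Ub R γ fun n r => a n r + b n r := by
  obtain ⟨C, hC⟩ := h.2
  obtain ⟨D, hD⟩ := h'.2
  refine ⟨fun n => (h.1 n).add (h'.1 n), C + D, fun n r hr => ?_⟩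
  have := abs_add_le (a n r) (b n r)
  linarith [hC n r hr, hD n r hr]

theorem Ub.mono (h : Ub R γ a) (hδ : δ ≤ γ) : Ub R δ a := by
  obtain ⟨C, C0, hC⟩ := h.bd
  refine ⟨h.1, C * R ^ (γ - δ), fun n r hr => (hC n r hr).trans ?_⟩
  have e : r ^ γ = r ^ (γ - δ) * r ^ δ := by rw [← Real.rpow_add hr.1]; ring_nf
  rw [e, mul_assoc]
  exact mul_le_mul_of_nonneg_left (mul_le_mul_of_nonneg_right
    (Real.rpow_le_rpow hr.1.le hr.2 (by linarith)) (Real.rpow_nonneg hr.1.le _)) C0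

theorem Ub.const (c : ℝ) : Ub R 0 fun _ _ => c :=
  ⟨fun _ => continuousOn_const, |c|, fun _ r _ => by simp⟩

theorem Ub.cmul (c : ℝ) (h : Ub R γ a) : Ub R γ fun n r => c * a n r := by
  simpa using (Ub.const c).mul h

theorem Ub.sub (h : Ub R γ a) (h' : Ub R γ b) : Ub R γ fun n r => a n r - b n r := by
  simpa [sub_eq_add_neg] using h.add (h'.cmul (-1))

theorem Ub.abs (h : Ub R γ a) : Ub R γ fun n r => |a n r| :=
  ⟨fun n => (h.1 n).abs, by simpa using h.2⟩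

theorem Ub.wt (m : ℕ) : Ub R m fun _ r => r ^ m :=
  ⟨fun _ => by fun_prop, 1, fun _ r hr => by simp [abs_of_pos (pow_pos hr.1 m)]⟩

theorem Ub.pow (h : Ub R γ a) (k : ℕ) : Ub R (k * γ) fun n r => a n r ^ k := by
  induction k with
  | zero => simpa using Ub.const 1
  | succ k ih =>
    have := ih.mul h
    simp only [← pow_succ] at this
    refine this.mono (le_of_eq ?_)
    push_cast; ring

theorem Ub.one (h : Ub R γ a) (n : ℕ) : Cb R γ (a n) :=
  ⟨fun _ => h.1 n, h.2.imp fun _ hC _ => hC n⟩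

theorem Cb.cont (h : Cb R γ y) : ContinuousOn y (Ioi 0) := h.1 0

theorem Cb.bd (h : Cb R γ y) : ∃ C, 0 ≤ C ∧ ∀ r ∈ Ioc 0 R, |y r| ≤ C * r ^ γ :=
  (Ub.bd h).imp fun _ hC => ⟨hC.1, hC.2 0⟩

theorem Cb.mk' (hc : ContinuousOn y (Ioi 0)) {C : ℝ} (h : ∀ r ∈ Ioc 0 R, |y r| ≤ C * r ^ γ) :
    Cb R γ y := ⟨fun _ => hc, C, fun _ => h⟩

theorem Cb.mul (h : Cb R γ y) (h' : Cb R δ z) : Cb R (γ + δ) fun r => y r * z r := Ub.mul h h'
theorem Cb.add (h : Cb R γ y) (h' : Cb R γ z) : Cb R γ fun r => y r + z r := Ub.add h h'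
theorem Cb.sub (h : Cb R γ y) (h' : Cb R γ z) : Cb R γ fun r => y r - z r := Ub.sub h h'
theorem Cb.mono (h : Cb R γ y) (hδ : δ ≤ γ) : Cb R δ y := Ub.mono h hδ
theorem Cb.const (c : ℝ) : Cb R 0 fun _ => c := Ub.const c
theorem Cb.cmul (c : ℝ) (h : Cb R γ y) : Cb R γ fun r => c * y r := Ub.cmul c h
theorem Cb.abs (h : Cb R γ y) : Cb R γ fun r => |y r| := Ub.abs h
theorem Cb.wt (m : ℕ) : Cb R m fun r => r ^ m := Ub.wt m
theorem Cb.pow (h : Cb R γ y) (k : ℕ) : Cb R (k * γ) fun r => y r ^ k := Ub.pow h k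

theorem Cb.sub_R {S : ℝ} (h : Cb R γ y) (hS : S ≤ R) : Cb S γ y := by
  obtain ⟨C, -, hC⟩ := h.bd
  exact Cb.mk' h.cont fun r hr => hC r ⟨hr.1, hr.2.trans hS⟩

theorem meas_of_cont (h : ContinuousOn y (Ioi 0)) {s : ℝ} (hs : 0 ≤ s) :
    AEStronglyMeasurable y (volume.restrict (uIoc 0 s)) := by
  rw [uIoc_of_le hs]
  exact (h.mono Ioc_subset_Ioi_self).aestronglyMeasurable measurableSet_Ioc

theorem Cb.int0 (h : Cb R γ y) (hγ : -1 < γ) (hR : 0 ≤ R) : IntervalIntegrable y volume 0 R := by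
  obtain ⟨C, -, hC⟩ := h.bd
  refine IntervalIntegrable.mono_fun' (g := fun r => C * r ^ γ)
    ((intervalIntegrable_rpow' hγ).const_mul C) (meas_of_cont h.cont hR) ?_
  rw [uIoc_of_le hR]
  exact (ae_restrict_iff' measurableSet_Ioc).2 (Eventually.of_forall fun r hr => hC r hr)

theorem int_pos (h : ContinuousOn y (Ioi 0)) {s t : ℝ} (hs : 0 < s) (ht : 0 < t) :
    IntervalIntegrable y volume s t :=
  (h.mono fun _ hx => lt_of_lt_of_le (lt_min hs ht) hx.1).intervalIntegrable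

theorem Cb.int (h : Cb R γ y) (hγ : -1 < γ) (hR : 0 < R) {s t : ℝ} (hs : 0 ≤ s) (ht : 0 ≤ t) :
    IntervalIntegrable y volume s t := by
  have key : ∀ s, 0 ≤ s → IntervalIntegrable y volume 0 s := fun s hs => by
    rcases hs.eq_or_lt with rfl | hs
    · exact IntervalIntegrable.refl
    · exact (h.int0 hγ hR.le).trans (int_pos h.cont hR hs)
  exact (key s hs).symm.trans (key t ht)

theorem Ub.lim (h : Ub R γ a) (hγ : -1 < γ) (hR : 0 ≤ R)
    (hl : ∀ r ∈ Ioc 0 R, Tendsto (fun n => a n r) atTop (𝓝 (y r))) :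
    Tendsto (fun n => ∫ r in (0 : ℝ)..R, a n r) atTop (𝓝 (∫ r in (0 : ℝ)..R, y r)) := by
  obtain ⟨C, hC⟩ := h.2
  refine intervalIntegral.tendsto_integral_filter_of_dominated_convergence (fun r => C * r ^ γ)
    (Eventually.of_forall fun n => meas_of_cont (h.1 n) hR)
    (Eventually.of_forall fun n => Eventually.of_forall fun r hr => ?_)
    ((intervalIntegrable_rpow' hγ).const_mul C) (Eventually.of_forall fun r hr => ?_)
  · exact hC n r (by rwa [uIoc_of_le hR] at hr)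
  · exact hl r (by rwa [uIoc_of_le hR] at hr)

theorem Ub.cb_lim (h : Ub R γ a) (hc : ContinuousOn y (Ioi 0))
    (hl : ∀ r ∈ Ioc 0 R, Tendsto (fun n => a n r) atTop (𝓝 (y r))) : Cb R γ y := by
  obtain ⟨C, hC⟩ := h.2
  exact Cb.mk' hc fun r hr => le_of_tendsto' (hl r hr).abs fun n => hC n r hr

theorem Cb.tend (h : Cb R γ y) (hγ : 0 < γ) (hR : 0 < R) : Tendsto y (𝓝[>] 0) (𝓝 0) := by
  obtain ⟨C, -, hC⟩ := h.bd
  have h1 : Tendsto (fun r : ℝ => C * r ^ γ) (𝓝[>] 0) (𝓝 0) := by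
    have : ContinuousAt (fun r : ℝ => C * r ^ γ) 0 :=
      continuousAt_const.mul (Real.continuousAt_rpow_const 0 γ (Or.inr hγ.le))
    have h2 := this.tendsto.mono_left (nhdsWithin_le_nhds (s := Ioi 0))
    simpa [Real.zero_rpow hγ.ne'] using h2
  refine squeeze_zero_norm' ?_ h1
  filter_upwards [Ioc_mem_nhdsGT hR] with r hr using hC r hr

theorem Cb.prim_le (h : Cb R γ y) (hγ : -1 < γ) :
    ∃ C, ∀ r ∈ Ioc 0 R, |∫ s in (0 : ℝ)..r, y s| ≤ C * r ^ (γ + 1) := by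
  obtain ⟨C, -, hC⟩ := h.bd
  refine ⟨C / (γ + 1), fun r hr => ?_⟩
  have h1 := norm_integral_le_of_norm_le (μ := volume) (f := y) (g := fun s => C * s ^ γ) hr.1.le
    (Eventually.of_forall fun s hs => hC s ⟨hs.1, hs.2.trans hr.2⟩)
    ((intervalIntegrable_rpow' hγ).const_mul C)
  rw [intervalIntegral.integral_const_mul, integral_rpow (Or.inl hγ),
    Real.zero_rpow (by linarith)] at h1
  refine h1.trans (le_of_eq ?_)
  ring

/-- `y' = p` and `(r ^ m p)' = r ^ m q` on the open half line, with no flux at the origin -/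
structure Sol (m : ℕ) (y p q : ℝ → ℝ) : Prop where
  dy : ∀ r > 0, HasDerivAt y (p r) r
  dp : ∀ r > 0, HasDerivAt (fun r => r ^ m * p r) (r ^ m * q r) r
  cq : ContinuousOn q (Ioi 0)
  lim : Tendsto (fun r => r ^ m * p r) (𝓝[>] 0) (𝓝 0)

theorem Sol.cy (h : Sol m y p q) : ContinuousOn y (Ioi 0) := fun r hr =>
  (h.dy r hr).continuousAt.continuousWithinAt

theorem Sol.cp (h : Sol m y p q) : ContinuousOn p (Ioi 0) := by
  have h1 : ContinuousOn (fun r => r ^ m * p r) (Ioi 0) := fun r hr =>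
    (h.dp r hr).continuousAt.continuousWithinAt
  refine (h1.div (g := fun r => r ^ m) (by fun_prop) fun r hr => (pow_pos hr m).ne').congr
    fun r hr => ?_
  have : r ^ m ≠ 0 := (pow_pos hr m).ne'
  simp only [Pi.div_apply]
  field_simp

theorem Sol.lin {y' p' q' : ℝ → ℝ} (h : Sol m y p q) (h' : Sol m y' p' q') (s t : ℝ) :
    Sol m (fun r => s * y r + t * y' r) (fun r => s * p r + t * p' r)
      fun r => s * q r + t * q' r where
  dy r hr := ((h.dy r hr).const_mul s).add ((h'.dy r hr).const_mul t)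
  dp r hr := by
    have := ((h.dp r hr).const_mul s).fun_add ((h'.dp r hr).const_mul t)
    have e : (fun r => r ^ m * (s * p r + t * p' r)) =
        fun r => s * (r ^ m * p r) + t * (r ^ m * p' r) := funext fun r => by ring
    rw [e]
    exact this.congr_deriv (by ring)
  cq := (continuousOn_const.mul h.cq).add (continuousOn_const.mul h'.cq)
  lim := by
    have := (h.lim.const_mul s).add (h'.lim.const_mul t)
    simp only [mul_zero, add_zero] at this
    exact this.congr fun r => by ring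

theorem Sol.const (c : ℝ) : Sol m (fun _ => c) (fun _ => 0) fun _ => 0 where
  dy r _ := hasDerivAt_const r c
  dp r _ := by simpa using hasDerivAt_const r (0 : ℝ)
  cq := continuousOn_const
  lim := by simp

theorem Sol.flux (h : Sol m y p q) (hq : Cb R γ q) (hγ : -1 < m + γ) (hR : 0 < R) {r : ℝ}
    (hr : 0 < r) : r ^ m * p r = ∫ s in (0 : ℝ)..r, s ^ m * q s := by
  rw [integral_eq_sub_of_hasDerivAt_of_tendsto hr (fun s hs => h.dp s hs.1)
    (((Cb.wt m).mul hq).int hγ hR le_rfl hr.le) h.lim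
    ((h.dp r hr).continuousAt.tendsto.mono_left nhdsWithin_le_nhds), sub_zero]

theorem Sol.cbp (h : Sol m y p q) (hq : Cb R γ q) (hγ : -1 < m + γ) (hR : 0 < R) :
    Cb R (γ + 1) p := by
  obtain ⟨C, hC⟩ := ((Cb.wt m).mul hq).prim_le hγ
  refine Cb.mk' h.cp (C := C) fun r hr => ?_
  have h1 := hC r hr
  rw [← h.flux hq hγ hR hr.1, abs_mul, abs_of_pos (pow_pos hr.1 m),
    show (m : ℝ) + γ + 1 = m + (γ + 1) by ring, Real.rpow_add hr.1, Real.rpow_natCast] at h1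
  refine le_of_mul_le_mul_left (h1.trans (le_of_eq ?_)) (pow_pos hr.1 m)
  ring

theorem cb_of_deriv (h : ∀ r > 0, HasDerivAt y (p r) r) (hp : Cb R γ p) (hγ : γ ≤ 0) :
    Cb R γ y := by
  obtain ⟨C, C0, hC⟩ := hp.bd
  refine Cb.mk' (fun r hr => (h r hr).continuousAt.continuousWithinAt)
    (C := C * R + |y R| * R ^ (-γ)) fun r hr => ?_
  have h1 := H53.abs_sub_le_of_deriv hr.2 (fun t ht => h t (hr.1.trans_le ht.1))
    (c := C * r ^ γ) fun t ht => (hC t ⟨hr.1.trans ht.1, ht.2.le⟩).trans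
      (mul_le_mul_of_nonneg_left (Real.rpow_le_rpow_of_nonpos hr.1 ht.1.le hγ) C0)
  have h2 : 1 ≤ R ^ (-γ) * r ^ γ := by
    calc (1 : ℝ) = r ^ (-γ) * r ^ γ := by rw [← Real.rpow_add hr.1]; simp
      _ ≤ _ := mul_le_mul_of_nonneg_right (Real.rpow_le_rpow hr.1.le hr.2 (by linarith))
        (Real.rpow_nonneg hr.1.le _)
  have h3 : 0 ≤ C * r ^ γ := mul_nonneg C0 (Real.rpow_nonneg hr.1.le _)
  have h4 := abs_sub_abs_le_abs_sub (y r) (y R)
  rw [abs_sub_comm] at h4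
  nlinarith [abs_nonneg (y R), mul_le_mul_of_nonneg_left h2 (abs_nonneg (y R)), hr.1]

theorem Sol.cby (h : Sol m y p q) (hq : Cb R γ q) (hγ : -1 < m + γ) (hR : 0 < R) (h0 : δ ≤ 0)
    (h1 : δ ≤ γ + 1) : Cb R δ y :=
  cb_of_deriv h.dy ((h.cbp hq hγ hR).mono h1) h0

theorem exists_sol (hq : Cb R γ q) (hγ : -1 < m + γ) (hR : 0 < R) : ∃ y p, Sol m y p q := by
  have hw := (Cb.wt m).mul hq
  let V : ℝ → ℝ := fun r => ∫ s in (0 : ℝ)..r, s ^ m * q s
  have dV : ∀ r > 0, HasDerivAt V (r ^ m * q r) r := fun r hr =>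
    integral_hasDerivAt_right (hw.int hγ hR le_rfl (le_of_lt hr))
      (hw.cont.stronglyMeasurableAtFilter isOpen_Ioi r hr)
      (hw.cont.continuousAt (Ioi_mem_nhds hr))
  have cV : ContinuousOn V (Ioi 0) := fun r hr => (dV r hr).continuousAt.continuousWithinAt
  have cp : ContinuousOn (fun r => V r / r ^ m) (Ioi 0) :=
    cV.div (by fun_prop) fun r hr => (pow_pos hr m).ne'
  have e : ∀ r > 0, r ^ m * (V r / r ^ m) = V r := fun r hr => by
    have : r ^ m ≠ 0 := (pow_pos hr m).ne'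
    field_simp
  refine ⟨fun r => ∫ s in (1 : ℝ)..r, V s / s ^ m, fun r => V r / r ^ m, fun r hr => ?_,
    fun r hr => ?_, hq.cont, ?_⟩
  · exact integral_hasDerivAt_right (int_pos cp one_pos hr)
      (cp.stronglyMeasurableAtFilter isOpen_Ioi r hr) (cp.continuousAt (Ioi_mem_nhds hr))
  · refine (dV r hr).congr_of_eventuallyEq ?_
    filter_upwards [Ioi_mem_nhds hr] with s hs using e s hs
  · obtain ⟨C, hC⟩ := hw.prim_le hγ
    refine ((Cb.mk' cV hC).tend (by linarith) hR).congr' ?_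
    filter_upwards [self_mem_nhdsWithin] with s hs using (e s hs).symm

/-- Green's identity -/
theorem green {G p' h : ℝ → ℝ} (S : Sol m y p q) (S' : Sol m G p' h) (hR : 0 < R)
    (hq : Cb R (-(m / 3)) q) (hh : Cb R (-(2 * m / 3)) h) (e : p R = 0) (e' : p' R = 0) :
    ∫ r in (0 : ℝ)..R, r ^ m * (h r * y r) = ∫ r in (0 : ℝ)..R, r ^ m * (G r * q r) := by
  have m0 : (0 : ℝ) ≤ m := Nat.cast_nonneg m
  have by' : Cb R (-(m / 3)) y := S.cby hq (by linarith) hR (by linarith) (by linarith)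
  have bG : Cb R (-(2 * m / 3)) G := S'.cby hh (by linarith) hR (by linarith) (by linarith)
  have bp := S.cbp hq (by linarith) hR
  have bp' := S'.cbp hh (by linarith) hR
  have i1 := ((Cb.wt m).mul (hh.mul by')).int0 (by linarith) hR.le
  have i2 := ((Cb.wt m).mul (bG.mul hq)).int0 (by linarith) hR.le
  have d : ∀ r > 0, HasDerivAt (fun r => r ^ m * p' r * y r - r ^ m * p r * G r)
      (r ^ m * (h r * y r) - r ^ m * (G r * q r)) r := fun r hr =>
    (((S'.dp r hr).mul (S.dy r hr)).sub ((S.dp r hr).mul (S'.dy r hr))).congr_deriv (by ring)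
  have t0 : Tendsto (fun r => r ^ m * p' r * y r - r ^ m * p r * G r) (𝓝[>] 0) (𝓝 0) :=
    (((((Cb.wt m).mul bp').mul by').mono (δ := 1) (by linarith)).sub
      ((((Cb.wt m).mul bp).mul bG).mono (by linarith))).tend one_pos hR
  have := integral_eq_sub_of_hasDerivAt_of_tendsto hR (fun s hs => d s hs.1) (i1.sub i2) t0
    ((d R hR).continuousAt.tendsto.mono_left nhdsWithin_le_nhds)
  rw [integral_sub i1 i2, e, e'] at this
  linarith

end Pool.Agent.MP_6aeaf9_an.H21
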