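import Pool.Agent.MP_6aeaf9_an.H21.Dual

/-! The variational problem on a ball, with uniform bounds. -/

namespace Pool.Agent.MP_6aeaf9_an.H21

open Set Filter Topology MeasureTheory intervalIntegral

variable {m : ℕ} {R s a : ℝ} {f z : ℝ → ℝ} {y p q : ℕ → ℝ → ℝ}

theorem Ub.limB (U : Ub R (-(m / 3)) y) (hR : 0 < R)
    (hl : ∀ r ∈ Ioc 0 R, Tendsto (fun n => y n r) atTop (𝓝 (f r))) :
    Tendsto (fun n => IB m R (y n)) atTop (𝓝 (IB m R f)) :=
  ((Ub.wt m).mul (U.pow 2)).lim (by push_cast; linarith [(Nat.cast_nonneg m : (0 : ℝ) ≤ m)])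
    hR.le fun r hr => ((hl r hr).pow 2).const_mul _

theorem Ub.limC (U : Ub R (-(m / 3)) y) (hR : 0 < R)
    (hl : ∀ r ∈ Ioc 0 R, Tendsto (fun n => y n r) atTop (𝓝 (f r))) :
    Tendsto (fun n => IC m R (y n)) atTop (𝓝 (IC m R f)) :=
  ((Ub.wt m).mul (U.pow 3)).lim (by push_cast; linarith) hR.le
    fun r hr => ((hl r hr).pow 3).const_mul _

theorem cube_conv (x x' : ℝ) {t : ℝ} (h0 : 0 ≤ t) (h1 : t ≤ 1) :
    |(1 - t) * x + t * x'| ^ 3 ≤ (1 - t) * |x| ^ 3 + t * |x'| ^ 3 := by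
  have h2 : |(1 - t) * x + t * x'| ≤ (1 - t) * |x| + t * |x'| := by
    refine (abs_add_le _ _).trans (le_of_eq ?_)
    rw [abs_mul, abs_mul, abs_of_nonneg h0, abs_of_nonneg (sub_nonneg.2 h1)]
  exact (pow_le_pow_left₀ (abs_nonneg _) h2 3).trans ((convexOn_pow 3).2 (abs_nonneg x)
    (abs_nonneg x') (sub_nonneg.2 h1) h0 (by ring))

theorem cube_gap (x u : ℝ) : |x - u| ^ 3 ≤ 2 * (|x| ^ 3 - 3 * (|u| * u * x) + 2 * |u| ^ 3) := by
  have key : ∀ x u : ℝ, 0 ≤ u →
      |x - u| ^ 3 ≤ 2 * (|x| ^ 3 - 3 * (|u| * u * x) + 2 * |u| ^ 3) := fun x u hu => by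
    rw [abs_of_nonneg hu]
    rcases le_total 0 x with hx | hx
    · rw [abs_of_nonneg hx, pow_succ, sq_abs]
      have h1 : |x - u| ≤ 2 * (x + 2 * u) := abs_le.2 ⟨by linarith, by linarith⟩
      exact (mul_le_mul_of_nonneg_left h1 (sq_nonneg _)).trans (le_of_eq (by ring))
    · rw [abs_of_nonpos hx, abs_of_nonpos (by linarith : x - u ≤ 0)]
      obtain ⟨t, rfl⟩ : ∃ t, x = -t := ⟨-x, by ring⟩
      have ht : 0 ≤ t := by linarith
      nlinarith [mul_nonneg ht (sq_nonneg (t - 3 / 2 * u)), mul_nonneg ht (sq_nonneg u),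
        pow_nonneg hu 3]
  rcases le_total 0 u with hu | hu
  · exact key x u hu
  · have := key (-x) (-u) (by linarith)
    rw [abs_neg, abs_neg, ← neg_sub', abs_neg] at this
    linarith

theorem vi {y' p' q' : ℝ → ℝ} (S : ∀ n, Adm m R (y n) (p n) (q n)) (hR : 0 < R)
    (U : Ub R (-(m / 3)) y) (bf : Cb R (-(m / 3)) f)
    (hl : ∀ r ∈ Ioc 0 R, Tendsto (fun n => y n r) atTop (𝓝 (f r)))
    (hs : ∀ y p q, Adm m R y p q → IC m R y - IA m R q - IB m R y ^ 2 ≤ s)
    (ha : Tendsto (fun n => IA m R (q n)) atTop (𝓝 a)) (e : s = IC m R f - a - IB m R f ^ 2)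
    (V : Adm m R y' p' q') :
    (∫ r in (0 : ℝ)..R, r ^ m * ((3 * f r ^ 2 - 4 * IB m R f * f r) * y' r)) - IA m R q' ≤
      (∫ r in (0 : ℝ)..R, r ^ m * ((3 * f r ^ 2 - 4 * IB m R f * f r) * f r)) - a := by
  have m0 : (0 : ℝ) ≤ m := Nat.cast_nonneg m
  have by' := V.sol.by V.bq hR
  have bz := by'.sub bf
  have i1 := ((Cb.wt m).mul ((bf.pow 2).mul bz)).int0 (by push_cast; linarith) hR.le
  have i2 := ((Cb.wt m).mul (bf.mul (bz.pow 2))).int0 (by push_cast; linarith) hR.le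
  have i3 := bz.wC.i0 hR le_rfl hR.le
  have j1 := ((Cb.wt m).mul (bf.mul bz)).int0 (by linarith) hR.le
  have j2 := bz.wB.i0 hR le_rfl hR.le
  have bh := ((bf.pow 2).cmul 3).sub ((bf.cmul (4 * IB m R f)).mono (by push_cast; linarith))
  set c1 := ∫ r in (0 : ℝ)..R, r ^ m * (f r ^ 2 * (y' r - f r))
  set c2 := ∫ r in (0 : ℝ)..R, r ^ m * (f r * (y' r - f r) ^ 2)
  set c3 := ∫ r in (0 : ℝ)..R, r ^ m * (y' r - f r) ^ 3
  set b1 := ∫ r in (0 : ℝ)..R, r ^ m * (f r * (y' r - f r))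
  set b2 := ∫ r in (0 : ℝ)..R, r ^ m * (y' r - f r) ^ 2
  have eC : ∀ t, IC m R (fun r => (1 - t) * f r + t * y' r) =
      IC m R f + 3 * t * c1 + 3 * t ^ 2 * c2 + t ^ 3 * c3 := fun t => by
    have i0 := bf.wC.i0 hR le_rfl hR.le
    simp only [IC, c1, c2, c3, ← intervalIntegral.integral_const_mul]
    rw [← integral_add i0 (i1.const_mul _), ← integral_add (i0.add (i1.const_mul _))
      (i2.const_mul _), ← integral_add ((i0.add (i1.const_mul _)).add (i2.const_mul _))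
      (i3.const_mul _)]
    exact integral_congr fun r _ => by ring
  have eB : ∀ t, IB m R (fun r => (1 - t) * f r + t * y' r) =
      IB m R f + 2 * t * b1 + t ^ 2 * b2 := fun t => by
    have i0 := bf.wB.i0 hR le_rfl hR.le
    simp only [IB, b1, b2, ← intervalIntegral.integral_const_mul]
    rw [← integral_add i0 (j1.const_mul _), ← integral_add (i0.add (j1.const_mul _))
      (j2.const_mul _)]
    exact integral_congr fun r _ => by ring
  have e0 : (∫ r in (0 : ℝ)..R, r ^ m * ((3 * f r ^ 2 - 4 * IB m R f * f r) * y' r)) -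
      (∫ r in (0 : ℝ)..R, r ^ m * ((3 * f r ^ 2 - 4 * IB m R f * f r) * f r)) =
      3 * c1 - 4 * IB m R f * b1 := by
    simp only [c1, b1, ← intervalIntegral.integral_const_mul]
    rw [← integral_sub (i1.const_mul _) (j1.const_mul _), ← integral_sub
      (((Cb.wt m).mul (bh.mul by')).int0 (by push_cast; linarith) hR.le)
      (((Cb.wt m).mul (bh.mul bf)).int0 (by push_cast; linarith) hR.le)]
    exact integral_congr fun r _ => by ring
  have key : ∀ t ∈ Ioc (0 : ℝ) 1, 3 * c1 + 3 * t * c2 + t ^ 2 * c3 -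
      (2 * b1 + t * b2) * (2 * IB m R f + 2 * t * b1 + t ^ 2 * b2) ≤ IA m R q' - a := by
    intro t ht
    have U' := (U.cmul (1 - t)).add (Ub.cmul t by')
    have hl' : ∀ r ∈ Ioc 0 R, Tendsto (fun n => (1 - t) * y n r + t * y' r) atTop
        (𝓝 ((1 - t) * f r + t * y' r)) := fun r hr => ((hl r hr).const_mul _).add_const _
    have t1 := ((U'.limC hR hl').sub ((ha.const_mul (1 - t)).add_const (t * IA m R q'))).sub
      ((U'.limB hR hl').pow 2)
    have h1 := le_of_tendsto' (b := s) t1 fun n => by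
      have h2 := hs _ _ _ ((S n).lin V (1 - t) t)
      have h3 : IA m R (fun r => (1 - t) * q n r + t * q' r) ≤
          (1 - t) * IA m R (q n) + t * IA m R q' := by
        have k1 := (S n).bq.wA.i0 hR le_rfl hR.le
        have k2 := V.bq.wA.i0 hR le_rfl hR.le
        simp only [IA, ← intervalIntegral.integral_const_mul]
        rw [← integral_add (k1.const_mul _) (k2.const_mul _)]
        refine integral_mono_on hR.le (((S n).lin V _ _).bq.wA.i0 hR le_rfl hR.le)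
          ((k1.const_mul _).add (k2.const_mul _)) fun r hr => ?_
        have := mul_le_mul_of_nonneg_left (cube_conv (q n r) (q' r) ht.1.le ht.2)
          (pow_nonneg hr.1 m)
        linarith
      linarith
    rw [eC, eB, e] at h1
    refine le_of_mul_le_mul_left ?_ ht.1
    linarith
  have c : ContinuousAt (fun t : ℝ => 3 * c1 + 3 * t * c2 + t ^ 2 * c3 -
      (2 * b1 + t * b2) * (2 * IB m R f + 2 * t * b1 + t ^ 2 * b2)) 0 := by fun_prop
  have := le_of_tendsto (c.tendsto.mono_left (nhdsWithin_le_nhds (s := Ioi 0)))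
    (Eventually.mono (Ioc_mem_nhdsGT one_pos) key)
  linarith

theorem int_congr {g g' : ℝ → ℝ} (hR : 0 ≤ R) (h : ∀ r ∈ Ioc 0 R, g r = g' r) :
    ∫ r in (0 : ℝ)..R, g r = ∫ r in (0 : ℝ)..R, g' r :=
  integral_congr_ae (Eventually.of_forall fun r hr => h r (by rwa [uIoc_of_le hR] at hr))

/-- the maximiser solves the equation -/
theorem euler (S : ∀ n, Adm m R (y n) (p n) (q n)) (hR : 0 < R)
    (U : Ub R (-(m / 3)) y) (bf : Cb R (-(m / 3)) f)
    (hl : ∀ r ∈ Ioc 0 R, Tendsto (fun n => y n r) atTop (𝓝 (f r)))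
    (hs : ∀ y p q, Adm m R y p q → IC m R y - IA m R q - IB m R y ^ 2 ≤ s)
    (ha : Tendsto (fun n => IA m R (q n)) atTop (𝓝 a)) (e : s = IC m R f - a - IB m R f ^ 2) :
    ∃ F P u G Q, Adm m R F P u ∧ Sol m G Q (fun r => f r ^ 2 - 4 * IB m R f / 3 * f r) ∧
      Q R = 0 ∧ (∀ r, G r = |u r| * u r) ∧ (∀ r ∈ Ioc 0 R, f r = F r) ∧
      IA m R u = IC m R f - 4 / 3 * IB m R f ^ 2 := by
  have m0 : (0 : ℝ) ≤ m := Nat.cast_nonneg m
  have bh : Cb R (-(2 * m / 3)) fun r => f r ^ 2 - 4 * IB m R f / 3 * f r :=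
    ((bf.pow 2).mono (by push_cast; linarith)).sub ((bf.cmul _).mono (by linarith))
  have e3 : ∀ z : ℝ → ℝ, ∫ r in (0 : ℝ)..R, r ^ m * ((3 * f r ^ 2 - 4 * IB m R f * f r) * z r) =
      3 * ∫ r in (0 : ℝ)..R, r ^ m * ((f r ^ 2 - 4 * IB m R f / 3 * f r) * z r) := fun z => by
    rw [← intervalIntegral.integral_const_mul]
    exact integral_congr fun r _ => by ring
  set M := ∫ r in (0 : ℝ)..R, r ^ m * ((f r ^ 2 - 4 * IB m R f / 3 * f r) * f r) with hM
  have v : ∀ {y' p' q'}, Adm m R y' p' q' →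
      3 * (∫ r in (0 : ℝ)..R, r ^ m * ((f r ^ 2 - 4 * IB m R f / 3 * f r) * y' r)) - IA m R q' ≤
        3 * M - a := fun V => by
    have := vi S hR U bf hl hs ha e V
    rwa [e3, e3] at this
  have h0 : ∫ r in (0 : ℝ)..R, r ^ m * (f r ^ 2 - 4 * IB m R f / 3 * f r) = 0 := by
    by_contra hn
    have := v (Adm.const ((3 * M - a + 1) /
      (3 * ∫ r in (0 : ℝ)..R, r ^ m * (f r ^ 2 - 4 * IB m R f / 3 * f r))))
    simp only [← mul_assoc, intervalIntegral.integral_mul_const, IA, abs_zero, ne_eq,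
      OfNat.ofNat_ne_zero, not_false_eq_true, zero_pow, mul_zero, intervalIntegral.integral_zero,
      sub_zero] at this
    rw [mul_div_cancel₀ _ (mul_ne_zero three_ne_zero hn)] at this
    linarith
  obtain ⟨F, P, u, G, Q, V, S', Q0, hG⟩ := dual bh hR h0
  have gr : ∀ {y' p' q'}, Adm m R y' p' q' →
      ∫ r in (0 : ℝ)..R, r ^ m * ((f r ^ 2 - 4 * IB m R f / 3 * f r) * y' r) =
        ∫ r in (0 : ℝ)..R, r ^ m * (|u r| * u r * q' r) := fun V' => by
    rw [green V'.sol S' hR V'.bq bh V'.pR Q0]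
    simp only [hG]
  have g1 : ∫ r in (0 : ℝ)..R, r ^ m * (|u r| * u r * u r) = IA m R u :=
    integral_congr fun r _ => by rw [pow_succ |u r| 2, sq_abs]; ring
  have v1 := v V
  rw [gr V, g1] at v1
  have t1 : Tendsto (fun n => ∫ r in (0 : ℝ)..R, r ^ m * (|u r| * u r * q n r)) atTop (𝓝 M) := by
    simp only [fun n => (gr (S n)).symm]
    exact ((Ub.wt m).mul (Ub.mul bh U)).lim (by linarith) hR.le
      fun r hr => ((hl r hr).const_mul _).const_mul _
  have t2 := ((ha.sub (t1.const_mul 3)).add_const (2 * IA m R u)).const_mul 2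
  have b2 : ∀ n, IA m R (fun r => 1 * q n r + -1 * u r) ≤ 2 * (IA m R (q n) -
      3 * (∫ r in (0 : ℝ)..R, r ^ m * (|u r| * u r * q n r)) + 2 * IA m R u) := fun n => by
    have k1 := (S n).bq.wA.i0 hR le_rfl hR.le
    have k2 := V.bq.wA.i0 hR le_rfl hR.le
    have k3 := ((Cb.wt m).mul ((V.bq.abs.mul V.bq).mul (S n).bq)).int0 (by linarith) hR.le
    simp only [IA]
    rw [← intervalIntegral.integral_const_mul, ← intervalIntegral.integral_const_mul,
      ← integral_sub k1 (k3.const_mul _), ← integral_add (k1.sub (k3.const_mul _)) (k2.const_mul _),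
      ← intervalIntegral.integral_const_mul]
    refine integral_mono_on hR.le (((S n).lin V _ _).bq.wA.i0 hR le_rfl hR.le)
      (((k1.sub (k3.const_mul _)).add (k2.const_mul _)).const_mul _) fun r hr => ?_
    have := mul_le_mul_of_nonneg_left (cube_gap (q n r) (u r)) (pow_nonneg hr.1 m)
    rw [show 1 * q n r + -1 * u r = q n r - u r by ring]
    linarith
  have hc : ∀ r ∈ Ioc 0 R, f r = F r + (f R - F R) := fun r hr => by
    have r0 := hr.1
    have t3 := (((hl R ⟨hR, le_rfl⟩).sub_const (F R)).sub ((hl r hr).sub_const (F r))).abs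
    have k : ∀ τ > 0, |f R - F R - (f r - F r)| ≤
        τ * (R ^ (2 / 3 : ℝ) * r ^ (-(m / 3) : ℝ) * (R - r)) := fun τ hτ => by
      refine le_of_tendsto t3 ?_
      filter_upwards [t2.eventually_lt_const (u := τ ^ 3) (by
        linarith [pow_pos hτ 3])] with n hn
      have W := (S n).lin V 1 (-1)
      have := W.sol.diff_le W.bq hτ ((b2 n).trans hn.le) r0 hr.2 le_rfl
      rw [show 1 * y n R + -1 * F R - (1 * y n r + -1 * F r) = y n R - F R - (y n r - F r) by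
        ring] at this
      exact this.trans (le_of_eq (by ring))
    have c : ContinuousAt
        (fun τ : ℝ => τ * (R ^ (2 / 3 : ℝ) * r ^ (-(m / 3) : ℝ) * (R - r))) 0 := by fun_prop
    have := ge_of_tendsto (c.tendsto.mono_left (nhdsWithin_le_nhds (s := Ioi 0)))
      (Eventually.mono self_mem_nhdsWithin k)
    simp only [zero_mul, abs_nonpos_iff] at this
    linarith
  have V' : Adm m R (fun r => F r + (f R - F R)) P u := ⟨V.sol.shift _, V.bq, V.pR⟩
  refine ⟨_, P, u, G, Q, V', S', Q0, hG, hc, ?_⟩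
  rw [← g1, ← gr V', int_congr hR.le (g' := fun r => r ^ m * f r ^ 3 -
    4 * IB m R f / 3 * (r ^ m * f r ^ 2)) fun r hr => by simp only [← hc r hr]; ring,
    integral_sub (bf.wC.i0 hR le_rfl hR.le) ((bf.wB.i0 hR le_rfl hR.le).const_mul _),
    intervalIntegral.integral_const_mul]
  change IC m R f - _ * IB m R f = _
  ring

/-- a solution in the ball with no flux at the boundary -/
structure Neu (m : ℕ) (R : ℝ) (F p u G q h : ℝ → ℝ) : Prop where
  adm : Adm m R F p u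
  sol : Sol m G q h
  qR : q R = 0
  hG : ∀ r, G r = |u r| * u r
  hh : ∀ r ∈ Ioc 0 R, h r = F r ^ 2 - F r

theorem Sol.cmul {y p q : ℝ → ℝ} (S : Sol m y p q) (c : ℝ) :
    Sol m (fun r => c * y r) (fun r => c * p r) fun r => c * q r := by
  simpa using S.lin (Sol.const 0) c 0

theorem core (m : ℕ) : ∃ E L : ℝ, 1 ≤ L ∧ ∀ R, L ≤ R → ∃ F p u G q h, Neu m R F p u G q h ∧
    IA m R u ≤ E ∧ IB m R F ≤ E ∧ 0 < IB m R F := by
  obtain ⟨K, K1, hK⟩ := gn m
  obtain ⟨L, s₀, L1, s0, hT⟩ := test m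
  have K0 : 0 < K := by linarith
  refine ⟨K ^ 2 / s₀ + K ^ 6 / s₀ ^ 2, L, L1, fun R hR => ?_⟩
  have R1 : 1 ≤ R := L1.trans hR
  have R0 : 0 < R := by linarith
  let T : Set ℝ := {v | ∃ y p q, Adm m R y p q ∧ v = IC m R y - IA m R q - IB m R y ^ 2}
  have up : ∀ y p q, Adm m R y p q → IC m R y - IA m R q - IB m R y ^ 2 ≤
      √(IB m R y) ^ 3 * (K - √(IB m R y)) - 3 / 4 * IA m R q := fun y p q V => by
    have h1 := hK V.sol V.bq R1
    have h2 : IB m R y ^ 2 = √(IB m R y) ^ 4 := by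
      rw [show 4 = 2 * 2 by norm_num, pow_mul, Real.sq_sqrt (IB_nonneg R0.le)]
    linarith
  have k4 : ∀ x : ℝ, 0 ≤ x → x ^ 3 * (K - x) ≤ K ^ 4 := fun x hx => by
    rcases le_total x K with k | k
    · calc _ ≤ K ^ 3 * K := mul_le_mul (pow_le_pow_left₀ hx k 3) (by linarith) (by linarith)
            (by positivity)
        _ = _ := by ring
    · exact (mul_nonpos_of_nonneg_of_nonpos (by positivity) (by linarith)).trans (by positivity)
  have bT : BddAbove T := ⟨K ^ 4, by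
    rintro _ ⟨y, p, q, V, rfl⟩
    linarith [up y p q V, k4 _ (Real.sqrt_nonneg (IB m R y)), IA_nonneg (m := m) (q := q) R0.le]⟩
  have hs : ∀ y p q, Adm m R y p q → IC m R y - IA m R q - IB m R y ^ 2 ≤ sSup T :=
    fun y p q V => le_csSup bT ⟨y, p, q, V, rfl⟩
  obtain ⟨y0, p0, q0, V0, h0⟩ := hT R hR
  have s1 : s₀ ≤ sSup T := h0.trans (hs _ _ _ V0)
  have ex : ∀ n : ℕ, ∃ y p q, Adm m R y p q ∧
      sSup T - s₀ * (1 / ((n : ℝ) + 1)) < IC m R y - IA m R q - IB m R y ^ 2 := fun n => by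
    obtain ⟨_, ⟨y, p, q, V, rfl⟩, h⟩ := exists_lt_of_lt_csSup (s := T) ⟨_, y0, p0, q0, V0, rfl⟩
      (sub_lt_self (sSup T) (by positivity : 0 < s₀ * (1 / ((n : ℝ) + 1))))
    exact ⟨y, p, q, V, h⟩
  choose y p q S hy using ex
  have pos : ∀ n, 3 / 4 * IA m R (q n) < √(IB m R (y n)) ^ 3 * (K - √(IB m R (y n))) := fun n => by
    have h1 : s₀ * (1 / ((n : ℝ) + 1)) ≤ s₀ := mul_le_of_le_one_right s0.le
      (by rw [div_le_one (by positivity)]; linarith [(Nat.cast_nonneg n : (0 : ℝ) ≤ n)])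
    linarith [hy n, up _ _ _ (S n)]
  have hB : ∀ n, IB m R (y n) ≤ K ^ 2 := fun n => by
    refine Real.sqrt_le_left K0.le |>.1 (le_of_not_gt fun k => ?_)
    have := mul_nonpos_of_nonneg_of_nonpos (pow_nonneg (Real.sqrt_nonneg (IB m R (y n))) 3)
      (sub_nonpos.2 k.le)
    linarith [pos n, IA_nonneg (m := m) (q := q n) R0.le]
  have hA : ∀ n, IA m R (q n) ≤ (2 * K ^ 2) ^ 3 := fun n => by
    have h1 : K ^ 4 ≤ K ^ 6 := pow_le_pow_right₀ K1 (by norm_num)
    have h2 : (2 * K ^ 2) ^ 3 = 8 * K ^ 6 := by ring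
    have h3 : 0 < K ^ 6 := by positivity
    linarith [pos n, k4 _ (Real.sqrt_nonneg (IB m R (y n)))]
  obtain ⟨U, φ, hφ, f, cf, hl⟩ := compact S R1 (by positivity) K0 hA hB
  have U' : Ub R (-(m / 3)) fun n => y (φ n) := ⟨fun n => U.1 _, U.2.imp fun _ h n => h _⟩
  have bf := U'.cb_lim cf hl
  have tB := U'.limB R0 hl
  have tC := U'.limC R0 hl
  have tL : Tendsto (fun n => IC m R (y n) - IA m R (q n) - IB m R (y n) ^ 2) atTop
      (𝓝 (sSup T)) := by
    refine tendsto_of_tendsto_of_tendsto_of_le_of_le ?_ tendsto_const_nhds (fun n => (hy n).le)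
      fun n => hs _ _ _ (S n)
    simpa using (tendsto_one_div_add_atTop_nhds_zero_nat.const_mul s₀).const_sub (sSup T)
  have tL' := tL.comp hφ.tendsto_atTop
  have tA : Tendsto (fun n => IA m R (q (φ n))) atTop
      (𝓝 (IC m R f - IB m R f ^ 2 - sSup T)) :=
    ((tC.sub (tB.pow 2)).sub tL').congr fun n => by simp
  obtain ⟨F, P, u, G, Q, V, S', Q0, hG, hf, eA⟩ :=
    euler (fun n => S (φ n)) R0 U' bf hl hs tA (by ring)
  have B1 : IB m R f ≤ K ^ 2 := le_of_tendsto' tB fun n => hB _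
  have B2 : s₀ ≤ K * √(IB m R f) ^ 3 := by
    refine s1.trans (le_of_tendsto_of_tendsto' tL' ((tB.sqrt.pow 3).const_mul K) fun n => ?_)
    have := up _ _ _ (S (φ n))
    have h1 := pow_nonneg (Real.sqrt_nonneg (IB m R (y (φ n)))) 4
    simp only [Function.comp]
    linarith [IA_nonneg (m := m) (q := q (φ n)) R0.le]
  have eB : IB m R F = IB m R f := int_congr R0.le fun r hr => by rw [hf r hr]
  have eC : IC m R F = IC m R f := int_congr R0.le fun r hr => by rw [hf r hr]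
  have A1 := hK V.sol V.bq R1
  rw [eB, eC] at A1
  obtain ⟨x, hx, x0⟩ : ∃ x, √(IB m R f) = x ∧ 0 < x := ⟨_, rfl, by
    refine (Real.sqrt_nonneg _).lt_of_ne fun k => ?_
    rw [← k] at B2
    norm_num at B2
    linarith⟩
  have eb : IB m R f = x ^ 2 := by rw [← hx, Real.sq_sqrt (IB_nonneg R0.le)]
  rw [hx] at A1 B2
  rw [eb] at S' eA eB B1
  have A2 : IA m R u ≤ 4 / 3 * K * x ^ 3 := by nlinarith [sq_nonneg (x ^ 2)]
  have c0 : 0 < 3 / (4 * x ^ 2) := by positivity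
  refine ⟨_, _, _, _, _, _, ⟨⟨V.sol.cmul (3 / (4 * x ^ 2)), V.bq.cmul _, by simp [V.pR]⟩,
    S'.cmul ((3 / (4 * x ^ 2)) ^ 2), by simp [Q0], fun r => ?_, fun r hr => ?_⟩, ?_⟩
  · rw [hG, abs_mul, abs_of_pos c0]
    ring
  · rw [hf r hr]
    field_simp
  have e1 : IA m R (fun r => 3 / (4 * x ^ 2) * u r) = (3 / (4 * x ^ 2)) ^ 3 * IA m R u := by
    unfold IA
    rw [← intervalIntegral.integral_const_mul]
    exact integral_congr fun r _ => by simp only [abs_mul, abs_of_pos c0]; ring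
  have e2 : IB m R (fun r => 3 / (4 * x ^ 2) * F r) = 9 / 16 / x ^ 2 := by
    have : IB m R (fun r => 3 / (4 * x ^ 2) * F r) = (3 / (4 * x ^ 2)) ^ 2 * IB m R F := by
      unfold IB
      rw [← intervalIntegral.integral_const_mul]
      exact integral_congr fun r _ => by ring
    rw [this, eB]
    field_simp
    norm_num
  rw [e1, e2]
  have p1 : 0 < K ^ 2 / s₀ := by positivity
  have p2 : 0 < K ^ 6 / s₀ ^ 2 := by positivity
  refine ⟨?_, ?_, by positivity⟩
  · have h1 := mul_le_mul_of_nonneg_left A2 (pow_pos c0 3).le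
    have h2 : (3 / (4 * x ^ 2)) ^ 3 * (4 / 3 * K * x ^ 3) = 9 / 16 * K / x ^ 3 := by
      field_simp
      norm_num
    have h3 : 9 / 16 * K / x ^ 3 ≤ K ^ 2 / s₀ := by
      rw [div_le_div_iff₀ (by positivity) s0]
      nlinarith [mul_le_mul_of_nonneg_left B2 K0.le, mul_pos K0 s0]
    linarith
  · have h3 : 9 / 16 / x ^ 2 ≤ K ^ 6 / s₀ ^ 2 := by
      rw [div_le_div_iff₀ (by positivity) (by positivity)]
      have h4 := pow_le_pow_left₀ s0.le B2 2
      have h5 := pow_le_pow_left₀ (by positivity) B1 2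
      have h6 := mul_le_mul_of_nonneg_left h5 (by positivity : 0 ≤ K ^ 2 * x ^ 2)
      have h7 : (K * x ^ 3) ^ 2 = K ^ 2 * x ^ 2 * (x ^ 2) ^ 2 := by ring
      have h8 : K ^ 2 * x ^ 2 * (K ^ 2) ^ 2 = K ^ 6 * x ^ 2 := by ring
      linarith [sq_nonneg s₀]
    linarith

end Pool.Agent.MP_6aeaf9_an.H21
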