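import Pool.Agent.MP_6aeaf9_an.H21.Core

/-! A radial profile with compact support. -/

namespace Pool.Agent.MP_6aeaf9_an.H21

open Set Filter Topology MeasureTheory intervalIntegral

variable {m : ℕ} {R γ a b W : ℝ} {w y z F p u G q h : ℝ → ℝ}

theorem Cb.congr (hy : Cb R γ y) (hz : ContinuousOn z (Ioi 0)) (e : ∀ r ∈ Ioc 0 R, z r = y r) :
    Cb R γ z := by
  obtain ⟨C, -, hC⟩ := hy.bd
  exact Cb.mk' hz fun r hr => (e r hr).symm ▸ hC r hr

theorem Neu.boot (N : Neu m R F p u G q h) (hR : 0 < R) (h0 : 0 ≤ γ) (h1 : γ ≤ m / 3)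
    (hF : Cb R (-γ) F) : Cb R (-max (γ - 1 / 2) 0) u ∧ Cb R (-max (γ - 1) 0) F := by
  have m0 : (0 : ℝ) ≤ m := Nat.cast_nonneg m
  have bh : Cb R (-(2 * γ)) h := (((hF.pow 2).mono (by push_cast; linarith)).sub
    (hF.mono (by linarith))).congr N.sol.cq N.hh
  have k1 := le_max_left (γ - 1 / 2) 0
  have k2 := le_max_right (γ - 1 / 2) 0
  have k3 : max (γ - 1 / 2) 0 ≤ γ := max_le (by linarith) h0
  have k4 := le_max_right (γ - 1) 0
  have k5 : max (γ - 1 / 2) 0 ≤ max (γ - 1) 0 + 1 :=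
    max_le (by linarith [le_max_left (γ - 1) 0]) (by linarith)
  have bG : Cb R (2 * -max (γ - 1 / 2) 0) G :=
    N.sol.cby bh (by linarith) hR (by linarith) (by linarith)
  have bu := bG.sg.congr N.adm.sol.cq fun r _ => by rw [N.hG, sg_abs]
  exact ⟨bu, N.adm.sol.cby bu (by linarith) hR (by linarith) (by linarith)⟩

theorem Neu.bdd (N : Neu m R F p u G q h) (hR : 0 < R) : Cb R 0 F ∧ Cb R 0 u := by
  have m0 : (0 : ℝ) ≤ m := Nat.cast_nonneg m
  have key : ∀ k : ℕ, Cb R (-max ((m : ℝ) / 3 - k) 0) F := fun k => by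
    induction k with
    | zero => exact (N.adm.sol.by N.adm.bq hR).mono (by simp)
    | succ k ih =>
      refine (N.boot hR (le_max_right _ _) (max_le (by linarith [(Nat.cast_nonneg k : (0 : ℝ) ≤ k)])
        (by linarith)) ih).2.mono (neg_le_neg (max_le ?_ (le_max_right _ _)))
      push_cast
      have h1 := le_max_left ((m : ℝ) / 3 - (k + 1)) 0
      have h2 := le_max_right ((m : ℝ) / 3 - (k + 1)) 0
      exact sub_le_iff_le_add.2 (max_le (by linarith) (by linarith))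
  have bF := key m
  rw [max_eq_right (by linarith)] at bF
  have bu := (N.boot hR le_rfl (by linarith) bF).1
  rw [max_eq_right (by norm_num)] at bu
  exact ⟨by simpa using bF, by simpa using bu⟩

theorem Neu.sys (N : Neu m R F p u G q h) : Sys (fun r => r ^ m) (Ioc 0 R) F p u G q :=
  ⟨fun t ht => N.adm.sol.dy t ht.1, fun t ht => N.adm.sol.dp t ht.1, fun t ht => N.sol.dy t ht.1,
    fun t ht => N.hh t ht ▸ N.sol.dp t ht.1, fun t _ => N.hG t,
    N.adm.sol.cq.mono Ioc_subset_Ioi_self⟩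

/-- a solution in a punctured ball, bounded and with no flux at the origin -/
structure Pre (m : ℕ) (b : ℝ) (F p u G q : ℝ → ℝ) : Prop where
  sys : Sys (fun r => r ^ m) (Ioo 0 b) F p u G q
  l1 : Tendsto (fun r => r ^ m * p r) (𝓝[>] 0) (𝓝 0)
  l2 : Tendsto (fun r => r ^ m * q r) (𝓝[>] 0) (𝓝 0)
  bd : ∃ C, ∀ r ∈ Ioo 0 b, |F r| ≤ C ∧ |u r| ≤ C

/-- a bounded solution with compact support -/
structure Prof (m : ℕ) (F p u G q : ℝ → ℝ) : Prop where
  s1 : Sol m F p u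
  s2 : Sol m G q fun r => F r ^ 2 - F r
  hG : ∀ r > 0, G r = |u r| * u r
  bF : Cb 1 0 F
  bu : Cb 1 0 u
  supp : ∃ c, ∀ r, c < r → F r = 0
  ne : ∃ r > 0, F r ≠ 0

theorem Neu.pre (N : Neu m R F p u G q h) (hR : 0 < R) (hb : b ≤ R) : Pre m b F p u G q := by
  obtain ⟨C, -, hC⟩ := (N.bdd hR).1.bd
  obtain ⟨D, -, hD⟩ := (N.bdd hR).2.bd
  refine ⟨N.sys.mono fun t ht => ⟨ht.1, ht.2.le.trans hb⟩, N.adm.sol.lim, N.sol.lim, max C D,
    fun r hr => ?_⟩
  have h1 := hC r ⟨hr.1, hr.2.le.trans hb⟩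
  have h2 := hD r ⟨hr.1, hr.2.le.trans hb⟩
  rw [Real.rpow_zero, mul_one] at h1 h2
  exact ⟨h1.trans (le_max_left _ _), h2.trans (le_max_right _ _)⟩

/-- cutting a function off -/
noncomputable def ct (c : ℝ) (g : ℝ → ℝ) : ℝ → ℝ := fun r => if r ≤ c then g r else 0

theorem ct_lt {c r : ℝ} (h0 : ∀ t ∈ Ioo c b, y t = 0) (hr : r < b) : ct c y =ᶠ[𝓝 r] y := by
  filter_upwards [Iio_mem_nhds hr] with t ht
  unfold ct
  split_ifs with k
  · rfl
  · exact (h0 t ⟨not_le.1 k, ht⟩).symm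

theorem ct_gt {c r : ℝ} (hr : c < r) : ct c y =ᶠ[𝓝 r] fun _ => 0 := by
  filter_upwards [Ioi_mem_nhds hr] with t ht
  exact if_neg (not_le.2 ht)

theorem ct_deriv {c : ℝ} (hc : c < b)
    (d : ∀ t ∈ Ioo 0 b, HasDerivAt (fun r => w r * y r) (w t * z t) t)
    (h0 : ∀ t ∈ Ioo c b, y t = 0) (h1 : ∀ t ∈ Ioo c b, z t = 0) (r : ℝ) (hr : 0 < r) :
    HasDerivAt (fun r => w r * ct c y r) (w r * ct c z r) r := by
  rcases lt_or_ge r b with k | k
  · rw [(ct_lt h1 k).eq_of_nhds]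
    exact (d r ⟨hr, k⟩).congr_of_eventuallyEq ((ct_lt h0 k).mono fun t ht => by simp only [ht])
  · rw [(ct_gt (hc.trans_le k)).eq_of_nhds, mul_zero]
    exact (hasDerivAt_const r (0 : ℝ)).congr_of_eventuallyEq
      ((ct_gt (y := y) (hc.trans_le k)).mono fun t ht => by simp only [ht, mul_zero])

theorem Pre.cut (P : Pre m b F p u G q) (ha : 0 < a) (hab : a < b)
    (h0 : ∀ t ∈ Ioo a b, F t = 0 ∧ u t = 0) (hn : ∃ r ∈ Ioo 0 b, F r ≠ 0) :
    ∃ F p u G q, Prof m F p u G q := by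
  have b0 : 0 < b := ha.trans hab
  have sub : ∀ t ∈ Ioo a b, t ∈ Ioo 0 b := fun t ht => ⟨ha.trans ht.1, ht.2⟩
  have dz : ∀ {y z : ℝ → ℝ}, (∀ t ∈ Ioo 0 b, HasDerivAt y (z t) t) → (∀ t ∈ Ioo a b, y t = 0) →
      ∀ t ∈ Ioo a b, z t = 0 := fun d k t ht =>
    (d t (sub t ht)).unique ((hasDerivAt_const t (0 : ℝ)).congr_of_eventuallyEq
      (Eventually.mono (Ioo_mem_nhds ht.1 ht.2) k))
  have F0 := fun t ht => (h0 t ht).1
  have u0 := fun t ht => (h0 t ht).2
  have G0 : ∀ t ∈ Ioo a b, G t = 0 := fun t ht => by rw [P.sys.hG t (sub t ht), u0 t ht, mul_zero]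
  have p0 := dz P.sys.dF F0
  have q0 := dz P.sys.dG G0
  have dF : ∀ r > 0, HasDerivAt (ct a F) (ct a p r) r := fun r hr => by
    simpa using ct_deriv (w := fun _ => 1) hab (by simpa using P.sys.dF) F0 p0 r hr
  have cF : ContinuousOn (ct a F) (Ioi 0) := fun r hr => (dF r hr).continuousAt.continuousWithinAt
  have cu : ContinuousOn (ct a u) (Ioi 0) := fun r hr => by
    refine ContinuousAt.continuousWithinAt ?_
    rcases lt_or_ge r b with k | k
    · exact (P.sys.cu.continuousAt (Ioo_mem_nhds hr k)).congr (ct_lt u0 k).symm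
    · exact continuousAt_const.congr (ct_gt (hab.trans_le k)).symm
  have lm : ∀ {y : ℝ → ℝ}, (∀ t ∈ Ioo a b, y t = 0) →
      Tendsto (fun r => r ^ m * y r) (𝓝[>] 0) (𝓝 0) →
      Tendsto (fun r => r ^ m * ct a y r) (𝓝[>] 0) (𝓝 0) := fun k t =>
    t.congr' (((ct_lt k b0).filter_mono nhdsWithin_le_nhds).mono fun r hr => by simp only [hr])
  obtain ⟨C, hC⟩ := P.bd
  have C0 : 0 ≤ C := (abs_nonneg _).trans (hC a ⟨ha, hab⟩).1
  refine ⟨ct a F, ct a p, ct a u, ct a G, ct a q,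
    ⟨dF, ct_deriv hab P.sys.dp p0 u0, cu, lm p0 P.l1⟩,
    ⟨fun r hr => ?_, fun r hr => ?_, (cF.pow 2).sub cF, lm q0 P.l2⟩, fun r hr => ?_,
    Cb.mk' cF (C := C) fun r hr => ?_, Cb.mk' cu (C := C) fun r hr => ?_,
    ⟨a, fun r hr => if_neg (not_le.2 hr)⟩, ?_⟩
  · simpa using ct_deriv (w := fun _ => 1) hab (by simpa using P.sys.dG) G0 q0 r hr
  · refine (ct_deriv hab P.sys.dq q0 (fun t ht => by simp [F0 t ht]) r hr).congr_deriv ?_
    unfold ct
    split_ifs <;> simp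
  · unfold ct
    split_ifs with k
    · exact P.sys.hG r ⟨hr, k.trans_lt hab⟩
    · simp
  · unfold ct
    split_ifs with k
    · simpa using (hC r ⟨hr.1, k.trans_lt hab⟩).1
    · simpa using C0
  · unfold ct
    split_ifs with k
    · simpa using (hC r ⟨hr.1, k.trans_lt hab⟩).2
    · simpa using C0
  · obtain ⟨r, hr, k⟩ := hn
    exact ⟨r, hr.1, by rwa [(ct_lt F0 hr.2).eq_of_nhds]⟩

theorem Sys.tail (S : Sys w (Icc a b) F p u G q) (hw : Wt w a b W) (hab : a + 1 ≤ b)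
    (he : ∀ x, a ≤ x → x + 1 ≤ b →
      ∫ t in x..x + 1, (|u t| ^ 3 + F t ^ 2 / 2) ≤ (1 / (105 * W)) ^ 3) :
    ∀ t ∈ Icc a b, |F t| ≤ 1 / 2 ∧ |q t * F t - p t * G t| ≤ 1 := by
  intro t ht
  have W1 := hw.one
  have W0 : 0 < W := by linarith
  obtain ⟨x, x0, x1, hx⟩ : ∃ x, a ≤ x ∧ x + 1 ≤ b ∧ t ∈ Icc x (x + 1) := by
    rcases le_total (t + 1) b with k | k
    · exact ⟨t, ht.1, k, le_rfl, by linarith⟩
    · exact ⟨b - 1, by linarith, by linarith, by linarith, by linarith [ht.2]⟩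
  obtain ⟨h1, h2⟩ := (S.mono (Icc_subset_Icc x0 x1)).small (hw.mono x0 x1) one_pos le_rfl
    (δ := 1 / (105 * W)) (by positivity) (by rw [div_le_one (by positivity)]; linarith)
    (by simpa using he x x0 x1)
  have e1 : 5 / 2 * (21 * W) * (1 / (105 * W)) * 1 ^ 6 = 1 / 2 := by field_simp; norm_num
  have e2 : 17 * (21 * W) ^ 2 * (1 / (105 * W)) ^ 2 * 1 ^ 13 = 17 / 25 := by field_simp; norm_num
  rw [e1] at h1
  rw [e2] at h2
  exact ⟨h1 t hx, (h2 h1 t hx).trans (by norm_num)⟩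

theorem Neu.energy (N : Neu m R F p u G q h) (ha : 0 < a) (hab : a ≤ b) (hb : b ≤ R) :
    a ^ m * ∫ t in a..b, (|u t| ^ 3 + F t ^ 2 / 2) ≤ IA m R u + IB m R F := by
  have R0 : 0 < R := by linarith
  have bF := N.adm.sol.by N.adm.bq R0
  have S := N.sys.mono (s' := Icc a b) fun t ht => ⟨ha.trans_le ht.1, ht.2.trans hb⟩
  have cF := S.cF
  have cu := S.cu
  have h1 := sub_int (N.adm.bq.wA.add bF.wB) (fun r hr => by positivity) R0 ha.le hab hb
  rw [integral_add (N.adm.bq.wA.i0 R0 le_rfl R0.le) (bF.wB.i0 R0 le_rfl R0.le)] at h1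
  refine le_trans ?_ h1
  rw [← intervalIntegral.integral_const_mul]
  refine integral_mono_on hab (cint (by fun_prop) hab) (cint (by fun_prop) hab) fun t ht => ?_
  have h2 := mul_le_mul_of_nonneg_right (pow_le_pow_left₀ ha.le ht.1 m)
    (by positivity : 0 ≤ |u t| ^ 3 + F t ^ 2 / 2)
  have t0 : 0 < t := ha.trans_le ht.1
  have : 0 ≤ t ^ m * F t ^ 2 := by positivity
  linarith

theorem ne_of_IB (h : 0 < IB m R F) (hR : 0 < R) : ∃ r ∈ Ioo 0 R, F r ≠ 0 := by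
  by_contra hn
  push Not at hn
  refine h.ne' ?_
  unfold IB
  rw [integral_of_le hR.le, integral_Ioc_eq_integral_Ioo,
    setIntegral_congr_fun measurableSet_Ioo (g := fun _ => 0) fun r hr => by simp [hn r hr]]
  simp

theorem prof_pos (hm : 1 ≤ m) : ∃ F p u G q, Prof m F p u G q := by
  obtain ⟨E, L₀, L1, hE⟩ := core m
  obtain ⟨L, L0, hL⟩ := vanish (2 ^ m)
  obtain ⟨δ, hδ, δ0⟩ : ∃ δ : ℝ, δ = (1 / (105 * 2 ^ m)) ^ 3 ∧ 0 < δ := ⟨_, rfl, by positivity⟩
  obtain ⟨a, a1, a2⟩ : ∃ a : ℝ, L₀ ≤ a ∧ 2 * E ≤ a * δ :=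
    ⟨max L₀ (2 * E / δ), le_max_left _ _, (div_le_iff₀ δ0).1 (le_max_right _ _)⟩
  obtain ⟨F, p, u, G, q, h, N, hA, hB, B0⟩ := hE (a + L + 1) (by linarith)
  have S := N.sys.mono (s' := Icc a (a + L + 1)) fun t ht => ⟨by linarith [ht.1], ht.2⟩
  have hw : Wt (fun r : ℝ => r ^ m) a (a + L + 1) (2 ^ m) :=
    ⟨by fun_prop, fun t ht => pow_pos (by linarith [ht.1]) m, fun s hs t ht k => by
      rw [← mul_pow]
      exact pow_le_pow_left₀ (by linarith [hs.1]) (by linarith [(abs_le.1 k).2, ht.1]) m,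
      one_le_pow₀ (by norm_num)⟩
  have T := S.tail hw (by linarith) fun x x0 x1 => by
    have h1 := N.energy (a := x) (b := x + 1) (by linarith) (by linarith) x1
    have h2 : x ≤ x ^ m := le_self_pow₀ (by linarith) (by omega)
    rw [← hδ]
    by_contra k
    push Not at k
    have h3 := mul_le_mul (x0.trans h2) k.le δ0.le (by linarith)
    have h4 := mul_lt_mul_of_pos_left k (by linarith : 0 < x ^ m)
    have h5 := mul_le_mul_of_nonneg_right (x0.trans h2) δ0.le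
    linarith
  have s1 : Icc a (a + L) ⊆ Icc a (a + L + 1) := Icc_subset_Icc le_rfl (by linarith)
  have s2 : Icc (a + L) (a + L + 1) ⊆ Icc a (a + L + 1) := Icc_subset_Icc (by linarith) le_rfl
  have am : 0 < a ^ m := pow_pos (by linarith) m
  have J := hL (S.mono s1) (hw.mono le_rfl (by linarith)) (fun t ht => (T t (s1 ht)).1)
    (fun t ht => pow_le_pow_left₀ (by linarith) ht.1 m) am (by
      have := mul_le_mul_of_nonneg_left
        ((le_abs_self _).trans (T a ⟨le_rfl, by linarith⟩).2) am.le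
      linarith)
  exact (N.pre (by linarith) le_rfl).cut (a := a + L) (by linarith) (by linarith)
    ((S.mono s2).zero (fun t ht => hw.w0 t (s2 ht)) (fun t ht => (T t (s2 ht)).1) J
      (by simp [N.qR, N.adm.pR])) (ne_of_IB B0 (by linarith))

theorem Sys.refl {s s' : Set ℝ} (S : Sys (fun r => r ^ 0) s F p u G q) (c : ℝ)
    (hs : ∀ t ∈ s', c - t ∈ s) :
    Sys (fun r => r ^ 0) s' (fun r => F (c - r)) (fun r => -p (c - r)) (fun r => u (c - r))
      (fun r => G (c - r)) fun r => -q (c - r) where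
  dF t ht := (S.dF _ (hs t ht)).comp_const_sub c t
  dp t ht := by simpa using ((S.dp _ (hs t ht)).comp_const_sub c t).fun_neg
  dG t ht := (S.dG _ (hs t ht)).comp_const_sub c t
  dq t ht := by simpa using ((S.dq _ (hs t ht)).comp_const_sub c t).fun_neg
  hG t ht := S.hG _ (hs t ht)
  cu := S.cu.comp (by fun_prop) hs

theorem prof_zero : ∃ F p u G q, Prof 0 F p u G q := by
  obtain ⟨E, L₀, L1, hE⟩ := core 0
  obtain ⟨L, L0, hL⟩ := vanish 1
  obtain ⟨δ, hδ, δ0⟩ : ∃ δ : ℝ, δ = (1 / (105 * 1)) ^ 3 ∧ 0 < δ := ⟨_, rfl, by positivity⟩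
  obtain ⟨n, hn⟩ := exists_nat_ge (max L₀ (2 * E / δ))
  have n1 : L₀ ≤ n := (le_max_left _ _).trans hn
  have n2 : 2 * E ≤ n * δ := (div_le_iff₀ δ0).1 ((le_max_right _ _).trans hn)
  have n0 : 0 < n := by exact_mod_cast (by linarith : (0 : ℝ) < n)
  obtain ⟨R, hR⟩ : ∃ R : ℝ, R = 1 + n * (2 * L + 2) := ⟨_, rfl⟩
  have R1 : L₀ ≤ R := by nlinarith
  have R0 : 0 < R := by linarith
  obtain ⟨F, p, u, G, q, h, N, hA, hB, B0⟩ := hE R R1
  have cF := N.adm.sol.cy
  have cu := N.adm.sol.cq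
  have ce : ContinuousOn (fun t => |u t| ^ 3 + F t ^ 2 / 2) (Ioi 0) := by fun_prop
  obtain ⟨a, a1, a2, ha⟩ : ∃ a : ℝ, 1 ≤ a ∧ a + (2 * L + 2) ≤ R ∧
      ∫ t in a..a + (2 * L + 2), (|u t| ^ 3 + F t ^ 2 / 2) ≤ δ := by
    have h1 := sum_integral_adjacent_intervals (μ := volume) (n := n)
      (f := fun t => |u t| ^ 3 + F t ^ 2 / 2) (a := fun k : ℕ => 1 + k * (2 * L + 2))
      fun k _ => int_pos ce (by positivity) (by positivity)
    have h2 := N.energy (a := 1) (b := R) one_pos (by linarith) le_rfl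
    simp only [Nat.cast_zero, zero_mul, add_zero, ← hR] at h1
    rw [← h1] at h2
    obtain ⟨k, hk, h3⟩ := Finset.exists_le_of_sum_le (g := fun _ => δ)
      (Finset.nonempty_range_iff.2 n0.ne')
      (f := fun k : ℕ => ∫ t in (1 + k * (2 * L + 2))..(1 + ((k + 1 : ℕ) : ℝ) * (2 * L + 2)),
        (|u t| ^ 3 + F t ^ 2 / 2)) (by
        rw [Finset.sum_const, Finset.card_range, nsmul_eq_mul]
        linarith)
    have k1 : (k : ℝ) + 1 ≤ n := by exact_mod_cast Finset.mem_range.1 hk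
    refine ⟨1 + k * (2 * L + 2), le_add_of_nonneg_right (by positivity), by nlinarith, ?_⟩
    rwa [show 1 + ((k + 1 : ℕ) : ℝ) * (2 * L + 2) = 1 + k * (2 * L + 2) + (2 * L + 2) by
      push_cast; ring] at h3
  have S := N.sys.mono (s' := Icc a (a + (2 * L + 2))) fun t ht =>
    ⟨by linarith [ht.1], ht.2.trans a2⟩
  have hw : ∀ a b, Wt (fun r : ℝ => r ^ 0) a b 1 := fun a b =>
    ⟨by fun_prop, fun t _ => by simp, fun s _ t _ _ => by simp, le_rfl⟩
  have T := S.tail (hw _ _) (by linarith) fun x x0 x1 => by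
    rw [← hδ]
    exact (integral_mono_interval x0 (by linarith) x1 (Eventually.of_forall fun t => by positivity)
      (int_pos ce (by linarith) (by linarith))).trans ha
  have s1 : Icc a (a + L) ⊆ Icc a (a + (2 * L + 2)) := Icc_subset_Icc le_rfl (by linarith)
  have s2 : Icc (a + L) (a + L + 2) ⊆ Icc a (a + (2 * L + 2)) :=
    Icc_subset_Icc (by linarith) (by linarith)
  have s3 : ∀ t ∈ Icc 0 (0 + L), a + (2 * L + 2) - t ∈ Icc a (a + (2 * L + 2)) := fun t ht =>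
    ⟨by linarith [ht.2], by linarith [ht.1]⟩
  have J1 := hL (S.mono s1) (hw _ _) (fun t ht => (T t (s1 ht)).1) (fun t _ => by simp) one_pos
    (by simpa using (le_abs_self _).trans (T a ⟨le_rfl, by linarith⟩).2)
  have J2 := hL (S.refl _ s3) (hw _ _) (fun t ht => (T _ (s3 t ht)).1) (fun t _ => by simp) one_pos
    (by
      have := (abs_le.1 (T (a + (2 * L + 2)) ⟨by linarith, le_rfl⟩).2).1
      simp only [pow_zero, sub_zero]
      linarith)
  rw [show a + (2 * L + 2) - (0 + L) = a + L + 2 by ring] at J2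
  have Z := (S.mono s2).zero (fun t _ => by simp) (fun t ht => (T t (s2 ht)).1) J1 (by
    simp only [pow_zero] at J2 ⊢
    linarith)
  by_cases k : ∃ r ∈ Ioo 0 (a + L + 2), F r ≠ 0
  · exact (N.pre R0 (by linarith)).cut (by linarith) (by linarith) Z k
  obtain ⟨r, hr, r0⟩ := ne_of_IB B0 R0
  have r1 : a + L + 2 ≤ r := le_of_not_gt fun k' => k ⟨r, ⟨hr.1, k'⟩, r0⟩
  obtain ⟨C, hC⟩ := (N.pre R0 le_rfl).bd
  have lm : ∀ {y : ℝ → ℝ}, ContinuousOn y (Ioi 0) → y R = 0 →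
      Tendsto (fun r => r ^ 0 * -y (R - r)) (𝓝[>] 0) (𝓝 0) := fun {y} c e => by
    have c1 : ContinuousAt y (R - 0) := c.continuousAt (Ioi_mem_nhds (by linarith))
    have c2 : ContinuousAt (fun r => y (R - r)) 0 := c1.comp (f := fun r => R - r) (by fun_prop)
    simpa [e] using c2.tendsto.neg.mono_left (nhdsWithin_le_nhds (s := Ioi 0))
  refine Pre.cut (b := R - (a + L)) (a := R - (a + L + 2))
    ⟨N.sys.refl R fun t ht => ⟨by linarith [ht.2], by linarith [ht.1]⟩, lm N.adm.sol.cp N.adm.pR,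
      lm N.sol.cp N.qR, C, fun t ht => hC _ ⟨by linarith [ht.2], by linarith [ht.1]⟩⟩
    (by linarith) (by linarith) (fun t ht => Z _ ⟨by linarith [ht.2], by linarith [ht.1]⟩)
    ⟨R - r, ⟨by linarith [hr.2], by linarith⟩, by simpa using r0⟩

theorem prof (m : ℕ) : ∃ F p u G q, Prof m F p u G q := by
  rcases Nat.eq_zero_or_pos m with rfl | h
  · exact prof_zero
  · exact prof_pos h

end Pool.Agent.MP_6aeaf9_an.H21
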