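import Pool.Agent.MP_6aeaf9_an.H21.GN

/-! The dual problem and compactness of bounded sequences. -/

namespace Pool.Agent.MP_6aeaf9_an.H21

open Set Filter Topology MeasureTheory intervalIntegral

variable {m : ℕ} {R τ σ γ : ℝ} {y p q G h : ℝ → ℝ}

/-- the signed square root -/
noncomputable def sg (x : ℝ) : ℝ := √x - √(-x)

theorem sg_cont : Continuous sg := by unfold sg; fun_prop

theorem sg_mul (x : ℝ) : |sg x| * sg x = x := by
  unfold sg
  rcases le_total 0 x with h | h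
  · rw [Real.sqrt_eq_zero_of_nonpos (neg_nonpos.2 h), sub_zero, abs_of_nonneg (Real.sqrt_nonneg x),
      Real.mul_self_sqrt h]
  · rw [Real.sqrt_eq_zero_of_nonpos h, zero_sub, abs_neg, abs_of_nonneg (Real.sqrt_nonneg _),
      mul_neg, Real.mul_self_sqrt (neg_nonneg.2 h), neg_neg]

theorem sq_sub_le (s t : ℝ) : (s - t) ^ 2 ≤ 2 * |(|s| * s - |t| * t)| := by
  have h1 := le_abs_self (|s| * s - |t| * t)
  have h2 := neg_abs_le (|s| * s - |t| * t)
  rcases le_total 0 s with hs | hs <;> rcases le_total 0 t with ht | ht <;>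
    simp only [abs_of_nonneg, abs_of_nonpos, hs, ht] at h1 h2 ⊢ <;>
    rcases le_total s t with k | k <;> nlinarith [sq_nonneg (s + t)]

theorem sg_hold (a b : ℝ) : (sg a - sg b) ^ 2 ≤ 2 * |a - b| := by
  have := sq_sub_le (sg a) (sg b)
  rwa [sg_mul, sg_mul] at this

theorem sg_abs (u : ℝ) : sg (|u| * u) = u := by
  have := sq_sub_le (sg (|u| * u)) u
  rw [sg_mul, sub_self, abs_zero, mul_zero] at this
  exact sub_eq_zero.1 (pow_eq_zero_iff two_ne_zero |>.1 (le_antisymm this (sq_nonneg _)))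

theorem Cb.sg (hG : Cb R (2 * γ) G) : Cb R γ fun r => sg (G r) := by
  obtain ⟨C, C0, hC⟩ := hG.bd
  refine Cb.mk' (sg_cont.comp_continuousOn hG.cont) (C := √C) fun r hr => ?_
  refine abs_le_of_sq_le_sq ?_ (mul_nonneg (Real.sqrt_nonneg _) (Real.rpow_nonneg hr.1.le _))
  have h1 := hC r hr
  rw [← sg_mul (G r), abs_mul, abs_abs, ← sq, sq_abs] at h1
  rw [mul_pow, Real.sq_sqrt C0, ← Real.rpow_natCast, ← Real.rpow_natCast (r ^ γ),
    ← Real.rpow_mul hr.1.le, mul_comm γ, Real.rpow_natCast]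
  exact_mod_cast h1

theorem exists_shift (hG : Cb R (-(2 * m / 3)) G) (hR : 0 < R) :
    ∃ c, ∫ r in (0 : ℝ)..R, r ^ m * sg (G r + c) = 0 := by
  have m0 : (0 : ℝ) ≤ m := Nat.cast_nonneg m
  have i1 : ∀ c, IntervalIntegrable (fun r => r ^ m * sg (G r + c)) volume 0 R := fun c =>
    ((Cb.wt m).mul (Cb.sg (γ := -(m / 3)) ((hG.add ((Cb.const c).mono (by linarith))).mono
      (by linarith)))).int0 (by linarith) hR.le
  have iw : IntervalIntegrable (fun r : ℝ => r ^ m) volume 0 R :=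
    Continuous.intervalIntegrable (by fun_prop) _ _
  have iD := ((Cb.wt m).mul (hG.abs.add ((Cb.const (1 / 2)).mono (by linarith)))).int0
    (by linarith) hR.le
  obtain ⟨W, hW, W0⟩ : ∃ W, ∫ r in (0 : ℝ)..R, r ^ m = W ∧ 0 < W :=
    ⟨_, rfl, by rw [integral_pow]; simp only [ne_eq, Nat.add_eq_zero_iff, one_ne_zero, and_false,
      not_false_eq_true, zero_pow, sub_zero]; positivity⟩
  obtain ⟨D, hD, D0⟩ : ∃ D, ∫ r in (0 : ℝ)..R, r ^ m * (|G r| + 1 / 2) = D ∧ 0 ≤ D :=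
    ⟨_, rfl, intervalIntegral.integral_nonneg hR.le fun r hr => by have := hr.1; positivity⟩
  have c1 : Continuous fun c => ∫ r in (0 : ℝ)..R, r ^ m * sg (G r + c) := by
    refine continuous_iff_continuousAt.2 fun c => ?_
    have t : Tendsto (fun d : ℝ => √(2 * |d - c|) * W) (𝓝 c) (𝓝 0) := by
      have : ContinuousAt (fun d : ℝ => √(2 * |d - c|) * W) c := by fun_prop
      simpa using this.tendsto
    refine tendsto_iff_norm_sub_tendsto_zero.2 (squeeze_zero (fun _ => norm_nonneg _)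
      (fun d => ?_) t)
    rw [← integral_sub (i1 d) (i1 c), ← hW, ← intervalIntegral.integral_const_mul]
    refine norm_integral_le_of_norm_le hR.le (Eventually.of_forall fun r hr => ?_)
      (iw.const_mul _)
    rw [← mul_sub, norm_mul, Real.norm_of_nonneg (pow_pos hr.1 m).le, mul_comm]
    refine mul_le_mul_of_nonneg_right (Real.abs_le_sqrt ?_) (pow_pos hr.1 m).le
    simpa using sg_hold (G r + d) (G r + c)
  have key : ∀ c, |(∫ r in (0 : ℝ)..R, r ^ m * sg (G r + c)) - sg c * W| ≤ D := fun c => by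
    rw [← hW, ← intervalIntegral.integral_const_mul, ← integral_sub (i1 c) (iw.const_mul _), ← hD,
      ← Real.norm_eq_abs]
    refine norm_integral_le_of_norm_le hR.le (Eventually.of_forall fun r hr => ?_) iD
    rw [mul_comm (sg c), ← mul_sub, norm_mul, Real.norm_of_nonneg (pow_pos hr.1 m).le]
    refine mul_le_mul_of_nonneg_left (abs_le_of_sq_le_sq ?_ (by positivity)) (pow_pos hr.1 m).le
    have := sg_hold (G r + c) c
    rw [add_sub_cancel_right] at this
    nlinarith [sq_nonneg (|G r| - 1 / 2)]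
  have e : D / W * W = D := by field_simp
  have k1 := key (|D / W| * (D / W))
  have k2 := key (|-(D / W)| * -(D / W))
  rw [sg_abs, e] at k1
  rw [sg_abs, neg_mul, e] at k2
  exact mem_range_of_exists_le_of_exists_ge c1 ⟨_, by linarith [(abs_le.1 k2).2]⟩
    ⟨_, by linarith [(abs_le.1 k1).1]⟩

theorem Sol.shift (S : Sol m y p q) (c : ℝ) : Sol m (fun r => y r + c) p q :=
  ⟨fun r hr => (S.dy r hr).add_const c, S.dp, S.cq, S.lim⟩

theorem Sol.pR (S : Sol m y p q) (hq : Cb R γ q) (hγ : -1 < m + γ) (hR : 0 < R)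
    (h0 : ∫ r in (0 : ℝ)..R, r ^ m * q r = 0) : p R = 0 := by
  rw [← S.flux hq hγ hR hR] at h0
  exact (mul_eq_zero.1 h0).resolve_left (pow_pos hR m).ne'

theorem dual (hh : Cb R (-(2 * m / 3)) h) (hR : 0 < R)
    (h0 : ∫ r in (0 : ℝ)..R, r ^ m * h r = 0) :
    ∃ F p u G q, Adm m R F p u ∧ Sol m G q h ∧ q R = 0 ∧ ∀ r, G r = |u r| * u r := by
  have m0 : (0 : ℝ) ≤ m := Nat.cast_nonneg m
  obtain ⟨G, q, S⟩ := exists_sol (m := m) hh (by linarith) hR
  have bG : Cb R (-(2 * m / 3)) G := S.cby hh (by linarith) hR (by linarith) (by linarith)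
  obtain ⟨c, hc⟩ := exists_shift bG hR
  have bu : Cb R (-(m / 3)) fun r => sg (G r + c) :=
    Cb.sg ((bG.add ((Cb.const c).mono (by linarith))).mono (by linarith))
  obtain ⟨F, p, S'⟩ := exists_sol (m := m) bu (by linarith) hR
  exact ⟨F, p, _, _, q, ⟨S', bu, S'.pR bu (by linarith) hR hc⟩, S.shift c,
    S.pR hh (by linarith) hR h0, fun r => (sg_mul _).symm⟩

theorem compact {y p q : ℕ → ℝ → ℝ} (S : ∀ n, Adm m R (y n) (p n) (q n)) (hR : 1 ≤ R)
    (hτ : 0 < τ) (hσ : 0 < σ) (hA : ∀ n, IA m R (q n) ≤ τ ^ 3) (hB : ∀ n, IB m R (y n) ≤ σ ^ 2) :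
    Ub R (-(m / 3)) y ∧ ∃ φ : ℕ → ℕ, StrictMono φ ∧ ∃ f : ℝ → ℝ, ContinuousOn f (Ioi 0) ∧
      ∀ r ∈ Ioc 0 R, Tendsto (fun n => y (φ n) r) atTop (𝓝 (f r)) := by
  have m0 : (0 : ℝ) ≤ m := Nat.cast_nonneg m
  have R0 : 0 < R := by linarith
  have by' : Ub R (-(m / 3)) y := by
    refine ⟨fun n => (S n).sol.cy, τ * R ^ (2 / 3 : ℝ) * R + 84 * 8 ^ m * (σ + τ) * R ^ (m / 3 : ℝ),
      fun n r hr => ?_⟩
    have h1 := (S n).sol.far (S n).bq hR hτ hσ (hA n) (hB n) (x := R) ⟨by linarith, le_rfl⟩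
    have h2 := (S n).sol.diff_le (S n).bq hτ (hA n) hr.1 hr.2 le_rfl
    have h3 : 1 ≤ R ^ (m / 3 : ℝ) * r ^ (-(m / 3) : ℝ) := by
      calc (1 : ℝ) = r ^ (m / 3 : ℝ) * r ^ (-(m / 3) : ℝ) := by rw [← Real.rpow_add hr.1]; simp
        _ ≤ _ := mul_le_mul_of_nonneg_right (Real.rpow_le_rpow hr.1.le hr.2 (by linarith))
          (Real.rpow_nonneg hr.1.le _)
    have h4 := abs_sub_abs_le_abs_sub (y n r) (y n R)
    rw [abs_sub_comm] at h4
    have r0 := hr.1
    have h5 := mul_le_mul_of_nonneg_left h3 (by positivity : 0 ≤ 84 * 8 ^ m * (σ + τ))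
    have h6 : 0 ≤ τ * R ^ (2 / 3 : ℝ) * r ^ (-(m / 3) : ℝ) * r := by positivity
    nlinarith
  have bp : Ub R (-(m / 3)) p := by
    refine ⟨fun n => (S n).sol.cp, τ * R ^ (2 / 3 : ℝ), fun n r hr => ?_⟩
    refine ((S n).sol.flux_le (S n).bq hτ (hA n) hr).trans ?_
    have r0 := hr.1
    gcongr
    exact hr.2
  obtain ⟨C, C0, hC⟩ := (((((Ub.wt m).mul by').cmul (m + 1 : ℕ)).mono (δ := 0) (by linarith)).add
    (((Ub.wt (m + 1)).mul bp).mono (by push_cast; linarith))).bd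
  obtain ⟨D, D0, hD⟩ := (((Ub.wt (m + 1)).mul by').mono (δ := 1) (by push_cast; linarith)).bd
  have lip : ∀ n, ∀ s ∈ Icc 0 R, ∀ t ∈ Icc 0 R, s ≤ t →
      |t ^ (m + 1) * y n t - s ^ (m + 1) * y n s| ≤ (C + D) * (t - s) := by
    intro n s hs t ht hst
    rcases hs.1.eq_or_lt with rfl | s0
    · rcases ht.1.eq_or_lt with rfl | t0
      · simp
      · have := hD n t ⟨t0, ht.2⟩
        rw [Real.rpow_one] at this
        simp only [ne_eq, Nat.add_eq_zero_iff, one_ne_zero, and_false, not_false_eq_true, zero_pow,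
          zero_mul, sub_zero]
        nlinarith
    · have := H53.abs_sub_le_of_deriv (c := C) hst (fun r hr => (hasDerivAt_pow (m + 1) r).fun_mul
        ((S n).sol.dy r (s0.trans_le hr.1))) fun r hr => by
          have := hC n r ⟨s0.trans hr.1, hr.2.le.trans ht.2⟩
          rwa [Real.rpow_zero, mul_one, ← mul_assoc] at this
      nlinarith
  obtain ⟨φ, hφ, Y, cY, hY⟩ := H53.arzela R0.le (fun n r => r ^ (m + 1) * y n r) ((C + D) * R)
    (fun n t ht => by
      have := lip n 0 ⟨le_rfl, R0.le⟩ t ht ht.1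
      simp only [ne_eq, Nat.add_eq_zero_iff, one_ne_zero, and_false, not_false_eq_true, zero_pow,
        zero_mul, sub_zero] at this
      exact this.trans (mul_le_mul_of_nonneg_left ht.2 (by linarith)))
    fun ε hε => ⟨ε / (C + D + 1), by positivity, fun n s hs t ht hst => by
      rw [lt_div_iff₀ (by positivity)] at hst
      rw [Real.norm_eq_abs]
      rcases le_total s t with k | k
      · rw [abs_sub_comm] at hst ⊢
        rw [abs_of_nonneg (sub_nonneg.2 k)] at hst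
        linarith [lip n s hs t ht k]
      · rw [abs_of_nonneg (sub_nonneg.2 k)] at hst
        linarith [lip n t ht s hs k]⟩
  refine ⟨by', φ, hφ, fun r => Y r / r ^ (m + 1),
    cY.continuousOn.div (by fun_prop) fun r hr => (pow_pos hr _).ne', fun r hr => ?_⟩
  have : r ^ (m + 1) ≠ 0 := (pow_pos hr.1 _).ne'
  refine ((hY.tendsto_at ⟨hr.1.le, hr.2⟩).div_const _).congr fun n => ?_
  field_simp

end Pool.Agent.MP_6aeaf9_an.H21
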