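import Pool.Agent.MP_6aeaf9_an.H21.Interp

/-! A Gagliardo-Nirenberg inequality for radial functions on balls, and a test function. -/

namespace Pool.Agent.MP_6aeaf9_an.H21

open Set Filter Topology MeasureTheory intervalIntegral

noncomputable def IA (m : ℕ) (R : ℝ) (q : ℝ → ℝ) : ℝ := ∫ r in (0 : ℝ)..R, r ^ m * |q r| ^ 3
noncomputable def IB (m : ℕ) (R : ℝ) (y : ℝ → ℝ) : ℝ := ∫ r in (0 : ℝ)..R, r ^ m * y r ^ 2
noncomputable def IC (m : ℕ) (R : ℝ) (y : ℝ → ℝ) : ℝ := ∫ r in (0 : ℝ)..R, r ^ m * y r ^ 3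

variable {m : ℕ} {R τ σ : ℝ} {y p q : ℝ → ℝ}

theorem Cb.wA (h : Cb R (-(m / 3)) q) : Cb R 0 fun r => r ^ m * |q r| ^ 3 :=
  ((Cb.wt m).mul (h.abs.pow 3)).mono (by push_cast; linarith)

theorem Cb.wB (h : Cb R (-(m / 3)) y) : Cb R 0 fun r => r ^ m * y r ^ 2 :=
  ((Cb.wt m).mul (h.pow 2)).mono (by push_cast; linarith [(Nat.cast_nonneg m : (0 : ℝ) ≤ m)])

theorem Cb.wC (h : Cb R (-(m / 3)) y) : Cb R 0 fun r => r ^ m * y r ^ 3 :=
  ((Cb.wt m).mul (h.pow 3)).mono (by push_cast; linarith)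

theorem Cb.i0 (h : Cb R 0 y) (hR : 0 < R) {s t : ℝ} (hs : 0 ≤ s) (ht : 0 ≤ t) :
    IntervalIntegrable y volume s t := h.int (by norm_num) hR hs ht

theorem sub_int (h : Cb R 0 y) (h0 : ∀ r, 0 < r → 0 ≤ y r) (hR : 0 < R) {s t : ℝ} (hs : 0 ≤ s)
    (hst : s ≤ t) (ht : t ≤ R) : ∫ r in s..t, y r ≤ ∫ r in (0 : ℝ)..R, y r :=
  integral_mono_interval hs hst ht
    ((ae_restrict_iff' measurableSet_Ioc).2 (Eventually.of_forall fun r hr => h0 r hr.1))
    (h.i0 hR le_rfl hR.le)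

theorem IA_nonneg (hR : 0 ≤ R) : 0 ≤ IA m R q :=
  intervalIntegral.integral_nonneg hR fun r hr => by have := hr.1; positivity

theorem IB_nonneg (hR : 0 ≤ R) : 0 ≤ IB m R y :=
  intervalIntegral.integral_nonneg hR fun r hr => by have := hr.1; positivity

theorem Sol.by (h : Sol m y p q) (hq : Cb R (-(m / 3)) q) (hR : 0 < R) : Cb R (-(m / 3)) y :=
  have m0 : (0 : ℝ) ≤ m := Nat.cast_nonneg m
  h.cby hq (by linarith) hR (by linarith) (by linarith)

theorem Sol.flux_le (h : Sol m y p q) (hq : Cb R (-(m / 3)) q) (hτ : 0 < τ)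
    (hA : IA m R q ≤ τ ^ 3) {s : ℝ} (hs : s ∈ Ioc 0 R) :
    |p s| ≤ τ * s ^ (2 / 3 : ℝ) * s ^ (-(m / 3) : ℝ) := by
  have m0 : (0 : ℝ) ≤ m := Nat.cast_nonneg m
  have hR : 0 < R := hs.1.trans_le hs.2
  obtain ⟨z, hz, e0, e1, e2⟩ : ∃ z : ℝ, 0 < z ∧ s = z ^ 3 ∧ s ^ (2 / 3 : ℝ) = z ^ 2 ∧
      s ^ (-(m / 3) : ℝ) = (z ^ m)⁻¹ := by
    refine ⟨s ^ (1 / 3 : ℝ), Real.rpow_pos_of_pos hs.1 _, ?_, ?_, ?_⟩
    · rw [← Real.rpow_natCast, ← Real.rpow_mul hs.1.le]; norm_num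
    · rw [← Real.rpow_natCast, ← Real.rpow_mul hs.1.le]; norm_num
    · rw [← Real.rpow_natCast, ← Real.rpow_mul hs.1.le, Real.rpow_neg hs.1.le]
      congr 2; ring
  have i1 := ((Cb.wt m).mul hq).int (by linarith) hR le_rfl hs.1.le
  have h1 := abs_integral_le_integral_abs (μ := volume) (f := fun r => r ^ m * q r) hs.1.le
  rw [← h.flux hq (by linarith) hR hs.1, abs_mul, abs_of_pos (pow_pos hs.1 m)] at h1
  have t0 : 0 < τ / z ^ (m + 1) := by positivity
  have h2 := int_le_of (c := 1 / (3 * (τ / z ^ (m + 1)) ^ 2))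
    (d := 2 * (τ / z ^ (m + 1)) / 3 * s ^ m) hs.1.le i1.abs (hq.wA.i0 hR le_rfl hs.1.le)
    fun r hr => by
      have h3 := mul_le_mul_of_nonneg_left (young2 (q r) t0) (pow_pos hr.1 m).le
      have h4 := mul_le_mul_of_nonneg_left (pow_le_pow_left₀ hr.1.le hr.2.le m)
        (by positivity : 0 ≤ 2 * (τ / z ^ (m + 1)) / 3)
      rw [abs_mul, abs_of_pos (pow_pos hr.1 m)]
      linarith
  have h3 := (sub_int hq.wA (fun r hr => by positivity) hR le_rfl hs.1.le hs.2).trans hA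
  have h4 := (h1.trans h2).trans (add_le_add_left (mul_le_mul_of_nonneg_left h3 (by positivity)) _)
  rw [e1, e2]
  refine le_of_mul_le_mul_left (h4.trans (le_of_eq ?_)) (pow_pos hs.1 m)
  rw [e0]
  field_simp
  ring

theorem Sol.diff_le (h : Sol m y p q) (hq : Cb R (-(m / 3)) q) (hτ : 0 < τ)
    (hA : IA m R q ≤ τ ^ 3) {r s : ℝ} (hr : 0 < r) (hrs : r ≤ s) (hs : s ≤ R) :
    |y s - y r| ≤ τ * s ^ (2 / 3 : ℝ) * r ^ (-(m / 3) : ℝ) * (s - r) := by
  have m0 : (0 : ℝ) ≤ m := Nat.cast_nonneg m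
  refine H53.abs_sub_le_of_deriv hrs (fun t ht => h.dy t (hr.trans_le ht.1)) fun t ht => ?_
  have t0 : 0 < t := hr.trans ht.1
  refine (h.flux_le hq hτ hA ⟨t0, ht.2.le.trans hs⟩).trans ?_
  have s0 : 0 < s := hr.trans_le hrs
  exact mul_le_mul (mul_le_mul_of_nonneg_left (Real.rpow_le_rpow t0.le ht.2.le (by norm_num)) hτ.le)
    (Real.rpow_le_rpow_of_nonpos hr ht.1.le (by linarith)) (by positivity) (by positivity)

theorem Sol.far (h : Sol m y p q) (hq : Cb R (-(m / 3)) q) (hR : 1 ≤ R) (hτ : 0 < τ) (hσ : 0 < σ)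
    (hA : IA m R q ≤ τ ^ 3) (hB : IB m R y ≤ σ ^ 2) {x : ℝ} (hx : x ∈ Icc (1 / 4) R) :
    |y x| ≤ 84 * 8 ^ m * (σ + τ) := by
  have R0 : 0 < R := by linarith
  obtain ⟨a, a0, a1, hx'⟩ : ∃ a, 1 / 4 ≤ a ∧ a + 1 / 4 ≤ R ∧ x ∈ Icc a (a + 1 / 4) := by
    rcases le_total (x + 1 / 4) R with h1 | h1
    · exact ⟨x, hx.1, h1, le_rfl, by linarith⟩
    · exact ⟨R - 1 / 4, by linarith, by linarith, by linarith, by linarith [hx.2]⟩
  have pos : ∀ t ∈ Icc a (a + 1 / 4), 0 < t := fun t ht => by linarith [ht.1]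
  have hab : a ≤ a + 1 / 4 := by linarith
  have w1 : ∀ t ∈ Ioo a (a + 1 / 4), 1 ≤ 4 ^ m * t ^ m := fun t ht => by
    rw [← mul_pow]; exact one_le_pow₀ (by linarith [ht.1])
  have p4 : (1 : ℝ) ≤ 4 ^ m := one_le_pow₀ (by norm_num)
  have hy := h.by hq R0
  have a1' : ∫ t in a..a + 1 / 4, |y t| ≤ 4 ^ m * σ := by
    have h1 := int_le_of (c := 4 ^ m / (2 * σ)) (d := σ / 2) hab
      (cint ((h.cy.mono pos).abs) hab) (hy.wB.i0 R0 (by linarith) (by linarith)) fun t ht => by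
        refine (young1 (y t) hσ).trans (add_le_add_left ?_ _)
        calc _ = 1 * (y t ^ 2 / (2 * σ)) := by ring
          _ ≤ 4 ^ m * t ^ m * (y t ^ 2 / (2 * σ)) :=
            mul_le_mul_of_nonneg_right (w1 t ht) (by positivity)
          _ = _ := by ring
    have h2 := (sub_int hy.wB (fun r hr => by positivity) R0 (by linarith) hab a1).trans hB
    refine h1.trans ((add_le_add_left (mul_le_mul_of_nonneg_left h2 (by positivity)) _).trans ?_)
    have e : 4 ^ m / (2 * σ) * σ ^ 2 = 4 ^ m * σ / 2 := by field_simp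
    rw [e]
    nlinarith
  have a2' : ∫ t in a..a + 1 / 4, |q t| ≤ 4 ^ m * τ := by
    have h1 := int_le_of (c := 4 ^ m / (3 * τ ^ 2)) (d := 2 * τ / 3) hab
      (cint ((h.cq.mono pos).abs) hab) (hq.wA.i0 R0 (by linarith) (by linarith)) fun t ht => by
        refine (young2 (q t) hτ).trans (add_le_add_left ?_ _)
        calc _ = 1 * (|q t| ^ 3 / (3 * τ ^ 2)) := by ring
          _ ≤ 4 ^ m * t ^ m * (|q t| ^ 3 / (3 * τ ^ 2)) :=
            mul_le_mul_of_nonneg_right (w1 t ht) (by positivity)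
          _ = _ := by ring
    have h2 := (sub_int hq.wA (fun r hr => by positivity) R0 (by linarith) hab a1).trans hA
    refine h1.trans ((add_le_add_left (mul_le_mul_of_nonneg_left h2 (by positivity)) _).trans ?_)
    have e : 4 ^ m / (3 * τ ^ 2) * τ ^ 3 = 4 ^ m * τ / 3 := by field_simp
    rw [e]
    nlinarith
  have L := (Loc.interp (w := fun r => r ^ m) (W := 2 ^ m)
    ⟨fun t ht => h.dy t (pos t ht), fun t ht => h.dp t (pos t ht), by fun_prop, h.cq.mono pos,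
      fun t ht => pow_pos (pos t ht) m, fun s hs t ht => by
        rw [← mul_pow]
        exact pow_le_pow_left₀ (pos s hs).le (by linarith [hs.2, ht.1]) m⟩
    (by norm_num) (one_le_pow₀ (by norm_num)) a1' a2' x hx').2
  refine L.trans ?_
  have e : (8 : ℝ) ^ m = 2 ^ m * 4 ^ m := by rw [← mul_pow]; norm_num
  have : 0 < (2 : ℝ) ^ m * 4 ^ m * τ := by positivity
  rw [e]
  nlinarith

theorem cube_add (x y : ℝ) : |x + y| ^ 3 ≤ 4 * |x| ^ 3 + 4 * |y| ^ 3 := by
  refine (pow_le_pow_left₀ (abs_nonneg _) (abs_add_le x y) 3).trans ?_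
  nlinarith [mul_nonneg (add_nonneg (abs_nonneg x) (abs_nonneg y)) (sq_nonneg (|x| - |y|))]

theorem Sol.gn0 (h : Sol m y p q) (hq : Cb R (-(m / 3)) q) (hR : 1 ≤ R) (hτ : 0 < τ) (hσ : 0 < σ)
    (hA : IA m R q ≤ τ ^ 3) (hB : IB m R y ≤ σ ^ 2) :
    IC m R y ≤ τ ^ 3 / 4 + (84 * 8 ^ m + 3 * (84 * 8 ^ m) ^ 2 + 8 ^ (m + 1)) * σ ^ 3 := by
  have R0 : 0 < R := by linarith
  have hy := h.by hq R0
  have K1 : (1 : ℝ) ≤ 84 * 8 ^ m := by linarith [one_le_pow₀ (n := m) (by norm_num : (1 : ℝ) ≤ 8)]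
  have h1 := int_le_of (a := 1 / 4) (b := R) (c := 84 * 8 ^ m * (σ + τ)) (d := 0) (by linarith)
    (hy.wC.i0 R0 (by norm_num) R0.le) (hy.wB.i0 R0 (by norm_num) R0.le) fun t ht => by
      have h2 := (le_abs_self _).trans (h.far hq hR hτ hσ hA hB (Ioo_subset_Icc_self ht))
      have h3 : 0 ≤ t ^ m * y t ^ 2 := by have : 0 < t := by linarith [ht.1]
                                          positivity
      nlinarith
  have h2 := (sub_int hy.wB (fun r hr => by positivity) R0 (s := 1 / 4) (by norm_num)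
    (by linarith) le_rfl).trans hB
  have h3 := mul_le_mul_of_nonneg_left h2 (by positivity : 0 ≤ 84 * 8 ^ m * (σ + τ))
  obtain ⟨s, hs, h4⟩ := exists_small (y := fun r => r ^ m * y r ^ 2) (c := 1 / 4) (d := 1 / 2)
    (hy.wB.cont.mono fun t ht => by simp only [mem_Ioi]; linarith [ht.1]) (by norm_num)
  have h5 := h4.trans ((sub_int hy.wB (fun r hr => by positivity) R0 (by norm_num)
    (by norm_num) (by linarith)).trans hB)
  have h6 : |y s| ≤ 2 ^ (m + 1) * σ := by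
    refine abs_le_of_sq_le_sq ?_ (by positivity)
    have w1 : 1 ≤ 4 ^ m * s ^ m := by rw [← mul_pow]; exact one_le_pow₀ (by linarith [hs.1])
    have e : ((2 : ℝ) ^ (m + 1) * σ) ^ 2 = 4 ^ m * (4 * σ ^ 2) := by
      rw [show (4 : ℝ) = 2 ^ 2 by norm_num, ← pow_mul]; ring
    rw [e]
    calc _ ≤ 4 ^ m * s ^ m * y s ^ 2 := le_mul_of_one_le_left (sq_nonneg _) w1
      _ = 4 ^ m * (s ^ m * y s ^ 2) := mul_assoc _ _ _
      _ ≤ _ := mul_le_mul_of_nonneg_left (by linarith) (by positivity)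
  have h7 := int_le_of (a := 0) (b := 1 / 4) (c := 0) (d := τ ^ 3 / 2 + 4 * 8 ^ (m + 1) * σ ^ 3)
    (by norm_num) (hy.wC.i0 R0 le_rfl (by norm_num)) (hy.wC.i0 R0 le_rfl (by norm_num))
    fun r hr => by
      have r0 := hr.1
      have k1 := h.diff_le hq hτ hA r0 (hr.2.le.trans hs.1) (by linarith [hs.2])
      have k2 : s ^ (2 / 3 : ℝ) ≤ 1 :=
        Real.rpow_le_one (by linarith [hs.1]) (by linarith [hs.2]) (by norm_num)
      have k3 : |y r - y s| ≤ τ / 2 * r ^ (-(m / 3) : ℝ) := by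
        rw [abs_sub_comm]
        refine k1.trans ?_
        calc _ ≤ τ * 1 * r ^ (-(m / 3) : ℝ) * (1 / 2) := by
              gcongr
              · linarith [hr.2, hs.1]
              · linarith [hs.2]
          _ = _ := by ring
      have k4 : r ^ m * (r ^ (-(m / 3) : ℝ)) ^ 3 = 1 := by
        rw [← Real.rpow_natCast, ← Real.rpow_natCast, ← Real.rpow_mul r0.le, ← Real.rpow_add r0]
        push_cast
        rw [show (m : ℝ) + -(m / 3) * 3 = 0 by ring, Real.rpow_zero]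
      have k5 := cube_add (y r - y s) (y s)
      rw [sub_add_cancel] at k5
      have k6 := pow_le_pow_left₀ (abs_nonneg _) k3 3
      have k7 := pow_le_pow_left₀ (abs_nonneg _) h6 3
      have k8 : r ^ m ≤ 1 := pow_le_one₀ r0.le (by linarith [hr.2])
      have e : ((2 : ℝ) ^ (m + 1) * σ) ^ 3 = 8 ^ (m + 1) * σ ^ 3 := by
        rw [show (8 : ℝ) = 2 ^ 3 by norm_num, ← pow_mul]; ring
      have k9 : y r ^ 3 ≤ |y r| ^ 3 := by rw [← abs_pow]; exact le_abs_self _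
      rw [e] at k7
      rw [mul_pow] at k6
      calc _ ≤ r ^ m * (4 * ((τ / 2) ^ 3 * (r ^ (-(m / 3) : ℝ)) ^ 3) + 4 * (8 ^ (m + 1) * σ ^ 3)) :=
            mul_le_mul_of_nonneg_left (by linarith) (by positivity)
        _ = τ ^ 3 / 2 * (r ^ m * (r ^ (-(m / 3) : ℝ)) ^ 3) +
            r ^ m * (4 * 8 ^ (m + 1) * σ ^ 3) := by ring
        _ ≤ _ := by
          rw [k4]
          linarith [mul_le_of_le_one_left (by positivity : 0 ≤ 4 * 8 ^ (m + 1) * σ ^ 3) k8]
  have h8 := integral_add_adjacent_intervals (hy.wC.i0 R0 le_rfl (by norm_num : (0 : ℝ) ≤ 1 / 4))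
    (hy.wC.i0 R0 (by norm_num) R0.le)
  have h9 : ∀ K : ℝ, 1 ≤ K → K * τ * σ ^ 2 ≤ τ ^ 3 / 8 + 3 * K ^ 2 * σ ^ 3 := fun K hK => by
    rcases le_total τ (3 * K * σ) with k | k
    · have := mul_le_mul_of_nonneg_left k (by positivity : 0 ≤ K * σ ^ 2)
      have : 0 < τ ^ 3 := by positivity
      nlinarith
    · have k1 := pow_le_pow_left₀ (by positivity) k 2
      have k2 : K * σ ^ 2 ≤ K ^ 2 * σ ^ 2 := by gcongr; nlinarith
      have k3 := mul_le_mul_of_nonneg_left (by nlinarith : 8 * (K * σ ^ 2) ≤ τ ^ 2) hτ.le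
      have : 0 < K ^ 2 * σ ^ 3 := by positivity
      nlinarith
  have := h9 _ K1
  unfold IC
  rw [← h8]
  linarith

theorem gn (m : ℕ) : ∃ K, 1 ≤ K ∧ ∀ {R : ℝ} {y p q : ℝ → ℝ}, Sol m y p q →
    Cb R (-(m / 3)) q → 1 ≤ R → IC m R y ≤ IA m R q / 4 + K * √(IB m R y) ^ 3 := by
  refine ⟨84 * 8 ^ m + 3 * (84 * 8 ^ m) ^ 2 + 8 ^ (m + 1), ?_, fun {R y p q} h hq hR => ?_⟩
  · have := one_le_pow₀ (n := m + 1) (by norm_num : (1 : ℝ) ≤ 8)
    have : (0 : ℝ) ≤ 84 * 8 ^ m + 3 * (84 * 8 ^ m) ^ 2 := by positivity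
    linarith
  set K : ℝ := 84 * 8 ^ m + 3 * (84 * 8 ^ m) ^ 2 + 8 ^ (m + 1)
  have A0 : 0 ≤ IA m R q := IA_nonneg (by linarith)
  have B0 : 0 ≤ IB m R y := IB_nonneg (by linarith)
  have c : ContinuousAt (fun ε : ℝ => (IA m R q + ε) / 4 + K * (√(IB m R y) + ε) ^ 3) 0 := by
    fun_prop
  have t := c.tendsto.mono_left (nhdsWithin_le_nhds (s := Ioi 0))
  simp only [add_zero] at t
  refine ge_of_tendsto t ?_
  filter_upwards [self_mem_nhdsWithin] with ε hε
  have ε0 : 0 < ε := hε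
  have e : ((IA m R q + ε) ^ ((3 : ℕ) : ℝ)⁻¹) ^ 3 = IA m R q + ε :=
    Real.rpow_inv_natCast_pow (by linarith) (by norm_num)
  have := h.gn0 hq hR (τ := (IA m R q + ε) ^ ((3 : ℕ) : ℝ)⁻¹) (σ := √(IB m R y) + ε)
    (by positivity) (by positivity) (by linarith)
    (by nlinarith [Real.sq_sqrt B0, Real.sqrt_nonneg (IB m R y)])
  rwa [e] at this

/-- admissible functions: no flux at the origin and at the boundary -/
structure Adm (m : ℕ) (R : ℝ) (y p q : ℝ → ℝ) : Prop where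
  sol : Sol m y p q
  bq : Cb R (-(m / 3)) q
  pR : p R = 0

theorem Adm.lin {y' p' q' : ℝ → ℝ} (h : Adm m R y p q) (h' : Adm m R y' p' q') (s t : ℝ) :
    Adm m R (fun r => s * y r + t * y' r) (fun r => s * p r + t * p' r)
      fun r => s * q r + t * q' r :=
  ⟨h.sol.lin h'.sol s t, (h.bq.cmul s).add (h'.bq.cmul t), by simp [h.pR, h'.pR]⟩

theorem Adm.const (c : ℝ) : Adm m R (fun _ => c) (fun _ => 0) fun _ => 0 :=
  ⟨Sol.const c, (Cb.const 0).mono (by linarith [(Nat.cast_nonneg m : (0 : ℝ) ≤ m)]), rfl⟩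

theorem d_max (k : ℕ) (x : ℝ) :
    HasDerivAt (fun x : ℝ => max x 0 ^ (k + 2)) ((k + 2 : ℕ) * max x 0 ^ (k + 1)) x := by
  refine H53.hasDerivAt_of_off_countable (G := fun x => (k + 2 : ℕ) * max x 0 ^ (k + 1))
    (countable_singleton 0) (by fun_prop) (by fun_prop) (fun x hx => ?_) x
  rcases lt_or_gt_of_ne (show x ≠ 0 from hx) with h | h
  · have : (fun x : ℝ => max x 0 ^ (k + 2)) =ᶠ[𝓝 x] fun _ => 0 := by
      filter_upwards [Iio_mem_nhds h] with z hz
      simp [max_eq_right (mem_Iio.1 hz).le]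
    simpa [max_eq_right h.le] using (hasDerivAt_const x (0 : ℝ)).congr_of_eventuallyEq this
  · have : (fun x : ℝ => max x 0 ^ (k + 2)) =ᶠ[𝓝 x] fun x => x ^ (k + 2) := by
      filter_upwards [Ioi_mem_nhds h] with z hz
      simp [max_eq_left (mem_Ioi.1 hz).le]
    simpa [max_eq_left h.le] using (hasDerivAt_pow (k + 2) x).congr_of_eventuallyEq this

theorem int_cut {g : ℝ → ℝ} {L : ℝ} (hg : Continuous g) (hL : L ≤ R) (h0 : ∀ r, L ≤ r → g r = 0) :
    ∫ r in (0 : ℝ)..R, g r = ∫ r in (0 : ℝ)..L, g r := by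
  rw [← integral_add_adjacent_intervals (hg.intervalIntegrable 0 L) (hg.intervalIntegrable L R),
    integral_congr (f := g) (g := fun _ => 0) (a := L) fun r hr => h0 r (uIcc_of_le hL ▸ hr).1]
  simp

theorem test (m : ℕ) : ∃ L s₀ : ℝ, 1 ≤ L ∧ 0 < s₀ ∧ ∀ R, L ≤ R → ∃ y p q, Adm m R y p q ∧
    s₀ ≤ IC m R y - IA m R q - IB m R y ^ 2 := by
  have m0 : (0 : ℝ) ≤ m := Nat.cast_nonneg m
  obtain ⟨L, L1, hL⟩ : ∃ L : ℝ, 1 ≤ L ∧ 6 * (m + 5) * (4 * 2 ^ (m + 1)) ≤ L ^ 2 := by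
    have : (1 : ℝ) ≤ 6 * (m + 5) * (4 * 2 ^ (m + 1)) := by
      nlinarith [one_le_pow₀ (n := m + 1) (by norm_num : (1 : ℝ) ≤ 2)]
    exact ⟨_, this, by nlinarith⟩
  have L0 : 0 < L := by linarith
  let θ : ℝ → ℝ := fun r => max (1 - r ^ 2 / L ^ 2) 0
  have cθ : Continuous θ := by fun_prop
  have θ0 : ∀ r, 0 ≤ θ r := fun r => le_max_right _ _
  have θ1 : ∀ r, θ r ≤ 1 := fun r => max_le (by
    have : 0 ≤ r ^ 2 / L ^ 2 := by positivity
    linarith) zero_le_one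
  have θz : ∀ r, L ≤ r → θ r = 0 := fun r hr => max_eq_right (by
    have : 1 ≤ r ^ 2 / L ^ 2 := by rw [one_le_div (by positivity)]; gcongr
    linarith)
  have dθ : ∀ k : ℕ, ∀ r, HasDerivAt (fun r => θ r ^ (k + 2))
      ((k + 2 : ℕ) * θ r ^ (k + 1) * -(2 * r / L ^ 2)) r := fun k r =>
    (d_max k _).comp r ((((hasDerivAt_pow 2 r).div_const (L ^ 2)).const_sub 1).congr_deriv
      (by simp))
  let y : ℝ → ℝ := fun r => θ r ^ 3
  let p : ℝ → ℝ := fun r => -(6 / L ^ 2) * (r * θ r ^ 2)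
  let q : ℝ → ℝ := fun r => -(6 / L ^ 2) * ((m + 1) * θ r ^ 2 - 4 * (r ^ 2 / L ^ 2 * θ r))
  have cq : Continuous q := by fun_prop
  have S : Sol m y p q := by
    refine ⟨fun r _ => (dθ 1 r).congr_deriv (by simp only [p]; push_cast; ring), fun r _ => ?_,
      cq.continuousOn, ?_⟩
    · have e : (fun r => r ^ m * p r) = fun r => -(6 / L ^ 2) * (r ^ (m + 1) * θ r ^ 2) :=
        funext fun r => by simp only [p]; ring
      rw [e]
      refine (((hasDerivAt_pow (m + 1) r).mul (dθ 0 r)).const_mul _).congr_deriv ?_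
      simp only [q, Nat.add_sub_cancel]
      push_cast
      ring
    · have : ContinuousAt (fun r => r ^ m * p r) 0 := by fun_prop
      simpa [p] using this.tendsto.mono_left (nhdsWithin_le_nhds (s := Ioi 0))
  have bq : ∀ r, |q r| ≤ 1 / (4 * 2 ^ (m + 1)) := fun r => by
    have h1 : 0 ≤ r ^ 2 / L ^ 2 * θ r := mul_nonneg (by positivity) (θ0 r)
    have h2 : r ^ 2 / L ^ 2 * θ r ≤ 1 := by
      rcases le_total (r ^ 2 / L ^ 2) 1 with k | k
      · exact mul_le_one₀ k (θ0 r) (θ1 r)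
      · rw [show θ r = 0 from max_eq_right (by linarith)]; simp
    have h3 : θ r ^ 2 ≤ 1 := pow_le_one₀ (θ0 r) (θ1 r)
    have h4 : |((m : ℝ) + 1) * θ r ^ 2 - 4 * (r ^ 2 / L ^ 2 * θ r)| ≤ (m : ℝ) + 5 := by
      rw [abs_le]
      constructor <;> nlinarith [sq_nonneg (θ r)]
    simp only [q]
    rw [abs_mul, abs_neg, abs_of_pos (by positivity : 0 < 6 / L ^ 2)]
    refine (mul_le_mul_of_nonneg_left h4 (by positivity)).trans ?_
    rw [div_mul_eq_mul_div, div_le_div_iff₀ (by positivity) (by positivity)]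
    linarith
  have hC : (3 / 4) ^ 9 * ((L / 2) ^ (m + 1) / (m + 1)) ≤ IC m L y := by
    have h1 := integral_mono_interval (μ := volume) (f := fun r => r ^ m * y r ^ 3) (a := 0)
      (b := L / 2) (c := 0) (d := L) le_rfl (by linarith) (by linarith)
      ((ae_restrict_iff' measurableSet_Ioc).2 (Eventually.of_forall fun r hr => by
        have := hr.1; have := θ0 r; simp only [y, Pi.zero_apply]; positivity))
      (Continuous.intervalIntegrable (by fun_prop) _ _)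
    refine le_trans ?_ h1
    have h2 := integral_mono_on (μ := volume) (a := 0) (b := L / 2)
      (f := fun r => (3 / 4) ^ 9 * r ^ m) (g := fun r => r ^ m * y r ^ 3) (by linarith)
      (Continuous.intervalIntegrable (by fun_prop) _ _)
      (Continuous.intervalIntegrable (by fun_prop) _ _) fun r hr => by
        have k1 : r ^ 2 / L ^ 2 ≤ 1 / 4 := by
          rw [div_le_iff₀ (by positivity)]; nlinarith [hr.1, hr.2]
        have k2 : 3 / 4 ≤ θ r := le_max_of_le_left (by linarith)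
        rw [mul_comm]
        simp only [y, ← pow_mul]
        exact mul_le_mul_of_nonneg_left (pow_le_pow_left₀ (by norm_num) k2 9) (pow_nonneg hr.1 m)
    rw [intervalIntegral.integral_const_mul, integral_pow] at h2
    simpa using h2
  have hA : IA m L q ≤ (1 / (4 * 2 ^ (m + 1))) ^ 3 * (L ^ (m + 1) / (m + 1)) := by
    have h2 := integral_mono_on (μ := volume) (a := 0) (b := L)
      (g := fun r => (1 / (4 * 2 ^ (m + 1))) ^ 3 * r ^ m) (f := fun r => r ^ m * |q r| ^ 3) L0.le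
      (Continuous.intervalIntegrable (by fun_prop) _ _)
      (Continuous.intervalIntegrable (by fun_prop) _ _) fun r hr => by
        rw [mul_comm]
        exact mul_le_mul_of_nonneg_right (pow_le_pow_left₀ (abs_nonneg _) (bq r) 3)
          (pow_nonneg hr.1 m)
    rw [intervalIntegral.integral_const_mul, integral_pow] at h2
    simpa [IA] using h2
  have hD : 0 < IC m L y - IA m L q := by
    have k1 : (1 : ℝ) ≤ 2 ^ (m + 1) := one_le_pow₀ (by norm_num)
    have k2 : (1 / (4 * 2 ^ (m + 1)) : ℝ) ^ 3 < (3 / 4) ^ 9 / 2 ^ (m + 1) := by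
      generalize (2 : ℝ) ^ (m + 1) = x at k1
      rw [div_pow, div_lt_div_iff₀ (by positivity) (by positivity)]
      nlinarith [mul_nonneg (sub_nonneg.2 k1) (mul_nonneg (by linarith : 0 ≤ x)
        (by linarith : 0 ≤ x + 1))]
    have k3 := mul_lt_mul_of_pos_right k2 (by positivity : 0 < L ^ (m + 1) / (m + 1))
    have e : (3 / 4) ^ 9 / 2 ^ (m + 1) * (L ^ (m + 1) / (m + 1)) =
        (3 / 4 : ℝ) ^ 9 * ((L / 2) ^ (m + 1) / (m + 1)) := by rw [div_pow L]; ring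
    linarith
  obtain ⟨ε, ε0, hε⟩ : ∃ ε : ℝ, 0 < ε ∧ ε * IB m L y ^ 2 < IC m L y - IA m L q :=
    ⟨(IC m L y - IA m L q) / (IB m L y ^ 2 + 1), by positivity, by
      rw [div_mul_eq_mul_div, div_lt_iff₀ (by positivity)]; nlinarith⟩
  refine ⟨L, ε ^ 3 * (IC m L y - IA m L q - ε * IB m L y ^ 2), L1, mul_pos (by positivity)
    (by linarith), fun R hR => ⟨_, _, _, (Adm.mk S ((Cb.mk' cq.continuousOn (γ := 0)
      (C := 1 / (4 * 2 ^ (m + 1))) fun r _ => by simpa using bq r).mono (by linarith))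
      (by simp [p, θz R hR])).lin (Adm.const 0) ε 0, le_of_eq ?_⟩⟩
  have eA : IA m R (fun r => ε * q r + 0 * 0) = ε ^ 3 * IA m L q := by
    unfold IA
    rw [← int_cut (by fun_prop) hR fun r hr => by simp [q, θz r hr],
      ← intervalIntegral.integral_const_mul]
    refine integral_congr fun r _ => ?_
    simp only [mul_zero, add_zero, abs_mul, abs_of_pos ε0]
    ring
  have eB : IB m R (fun r => ε * y r + 0 * 0) = ε ^ 2 * IB m L y := by
    unfold IB
    rw [← int_cut (by fun_prop) hR fun r hr => by simp [y, θz r hr],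
      ← intervalIntegral.integral_const_mul]
    exact integral_congr fun r _ => by ring
  have eC : IC m R (fun r => ε * y r + 0 * 0) = ε ^ 3 * IC m L y := by
    unfold IC
    rw [← int_cut (by fun_prop) hR fun r hr => by simp [y, θz r hr],
      ← intervalIntegral.integral_const_mul]
    exact integral_congr fun r _ => by ring
  rw [eA, eB, eC]
  ring

end Pool.Agent.MP_6aeaf9_an.H21
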