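import Pool.Agent.MP_6aeaf9_an.H21.Basic

/-! Interpolation on a segment and extinction at a finite distance. -/

namespace Pool.Agent.MP_6aeaf9_an.H21

open Set Filter Topology MeasureTheory intervalIntegral

variable {w y p q F u G : ℝ → ℝ} {a b l W α β δ : ℝ}

theorem cint (h : ContinuousOn y (Icc a b)) (hab : a ≤ b) : IntervalIntegrable y volume a b :=
  ContinuousOn.intervalIntegrable_of_Icc hab h

theorem exists_small {c d : ℝ} (h : ContinuousOn y (Icc c d)) (hcd : c ≤ d) :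
    ∃ s ∈ Icc c d, y s * (d - c) ≤ ∫ t in c..d, y t := by
  obtain ⟨s, hs, hm⟩ := isCompact_Icc.exists_isMinOn (nonempty_Icc.2 hcd) h
  refine ⟨s, hs, ?_⟩
  have := integral_mono_on hcd (intervalIntegrable_const (c := y s)) (cint h hcd)
    fun t ht => hm ht
  rwa [intervalIntegral.integral_const, smul_eq_mul, mul_comm] at this

theorem int_le_of {f g : ℝ → ℝ} {c d : ℝ} (hab : a ≤ b) (hf : IntervalIntegrable f volume a b)
    (hg : IntervalIntegrable g volume a b) (h : ∀ s ∈ Ioo a b, f s ≤ c * g s + d) :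
    ∫ t in a..b, f t ≤ c * (∫ t in a..b, g t) + d * (b - a) := by
  have := integral_mono_on_of_le_Ioo hab hf ((hg.const_mul c).add intervalIntegrable_const) h
  rwa [integral_add (hg.const_mul c) intervalIntegrable_const,
    intervalIntegral.integral_const_mul, intervalIntegral.integral_const, smul_eq_mul,
    mul_comm (b - a)] at this

/-- a weighted second order relation on a segment -/
structure Loc (w y p q : ℝ → ℝ) (a b W : ℝ) : Prop where
  dy : ∀ t ∈ Icc a b, HasDerivAt y (p t) t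
  dp : ∀ t ∈ Icc a b, HasDerivAt (fun r => w r * p r) (w t * q t) t
  cw : ContinuousOn w (Icc a b)
  cq : ContinuousOn q (Icc a b)
  w0 : ∀ t ∈ Icc a b, 0 < w t
  hw : ∀ s ∈ Icc a b, ∀ t ∈ Icc a b, w s ≤ W * w t

theorem Loc.interp (h : Loc w y p q a (a + l) W) (hl : 0 < l) (hW : 1 ≤ W)
    (hα : ∫ t in a..a + l, |y t| ≤ α) (hβ : ∫ t in a..a + l, |q t| ≤ β) :
    ∀ t ∈ Icc a (a + l), |p t| ≤ 21 * W * (α / l ^ 2 + β) ∧ |y t| ≤ 21 * W * (α / l + β * l) := by
  have hab : a ≤ a + l := by linarith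
  have cy : ContinuousOn (fun t => |y t|) (Icc a (a + l)) := (H53.contOn_of_deriv h.dy).abs
  have pt : ∀ c d, a ≤ c → d ≤ a + l → d - c = l / 3 → ∃ s ∈ Icc c d, |y s| ≤ 3 * (α / l) := by
    intro c d hc hd e
    obtain ⟨s, hs, h1⟩ := exists_small (cy.mono (Icc_subset_Icc hc hd)) (by linarith)
    have h2 := integral_mono_interval hc (by linarith) hd
      (Eventually.of_forall fun t => abs_nonneg (y t)) (cint cy hab)
    refine ⟨s, hs, ?_⟩
    rw [e] at h1
    rw [← mul_div_assoc, le_div_iff₀ hl]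
    linarith
  obtain ⟨s1, hs1, y1⟩ := pt a (a + l / 3) le_rfl (by linarith) (by ring)
  obtain ⟨s2, hs2, y2⟩ := pt (a + 2 * l / 3) (a + l) (by linarith) le_rfl (by ring)
  have α0 : 0 ≤ α / l := by linarith [abs_nonneg (y s1)]
  have β0 : 0 ≤ β := (intervalIntegral.integral_nonneg hab fun t _ => abs_nonneg (q t)).trans hβ
  have h12 : l / 3 ≤ s2 - s1 := by linarith [hs1.2, hs2.1]
  obtain ⟨ξ, hξ, e⟩ := H53.mvt (a := s1) (b := s2) (by linarith)
    fun t ht => h.dy t ⟨hs1.1.trans ht.1, ht.2.trans hs2.2⟩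
  have mξ : ξ ∈ Icc a (a + l) := ⟨hs1.1.trans hξ.1.le, hξ.2.le.trans hs2.2⟩
  have e2 : α / l ^ 2 * l = α / l := by field_simp
  have pξ : |p ξ| ≤ 18 * (α / l ^ 2) := by
    have h1 : |p ξ| * (s2 - s1) ≤ 6 * (α / l) := by
      rw [← abs_of_pos (a := s2 - s1) (by linarith), ← abs_mul, ← e]
      linarith [abs_sub (y s2) (y s1)]
    have h2 := mul_le_mul_of_nonneg_left h12 (abs_nonneg (p ξ))
    refine le_of_mul_le_mul_right ?_ hl
    nlinarith
  have α1 : 0 ≤ α / l ^ 2 := by linarith [abs_nonneg (p ξ)]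
  have cwq : ContinuousOn (fun t => w t * q t) (Icc a (a + l)) := h.cw.mul h.cq
  have hp : ∀ t ∈ Icc a (a + l), |p t| ≤ W * (18 * (α / l ^ 2) + β) := by
    intro t ht
    have sub : uIcc ξ t ⊆ Icc a (a + l) := uIcc_subset_Icc mξ ht
    have h1 := integral_eq_sub_of_hasDerivAt (fun s hs => h.dp s (sub hs))
      (cwq.mono sub).intervalIntegrable
    have h2 := norm_integral_le_abs_integral_norm (μ := volume) (f := fun t => w t * q t)
      (a := ξ) (b := t)
    have h3 := abs_integral_mono_interval (μ := volume) (f := fun t => ‖w t * q t‖) (a := ξ)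
      (b := t) (c := a) (d := a + l)
      (by rw [uIoc_of_le hab]
          exact Ioc_subset_Ioc (le_min mξ.1 ht.1) (max_le mξ.2 ht.2))
      (Eventually.of_forall fun t => norm_nonneg _) (cint cwq.norm hab)
    have h4 := int_le_of (c := W * w t) (d := 0) hab (cint cwq.norm hab) (cint h.cq.abs hab)
      fun s hs => by
        have hs' := Ioo_subset_Icc_self hs
        rw [norm_mul, Real.norm_of_nonneg (h.w0 s hs').le, add_zero]
        exact mul_le_mul_of_nonneg_right (h.hw s hs' t ht) (abs_nonneg _)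
    rw [abs_of_nonneg (a := ∫ x in a..a + l, _)
      (intervalIntegral.integral_nonneg hab fun t _ => norm_nonneg _)] at h3
    rw [h1, Real.norm_eq_abs] at h2
    have wt := h.w0 t ht
    have h5 := abs_sub_abs_le_abs_sub (w t * p t) (w ξ * p ξ)
    rw [abs_mul, abs_mul, abs_of_pos wt, abs_of_pos (h.w0 ξ mξ)] at h5
    have h6 := mul_le_mul (h.hw ξ mξ t ht) pξ (abs_nonneg _) (by positivity)
    have h7 := mul_le_mul_of_nonneg_left hβ (by positivity : 0 ≤ W * w t)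
    refine le_of_mul_le_mul_left ?_ wt
    nlinarith
  intro t ht
  refine ⟨(hp t ht).trans (by nlinarith), ?_⟩
  have m1 : s1 ∈ Icc a (a + l) := ⟨hs1.1, by linarith [hs1.2]⟩
  have K0 : 0 ≤ W * (18 * (α / l ^ 2) + β) := by positivity
  have h1 : |y t - y s1| ≤ W * (18 * (α / l ^ 2) + β) * l := by
    rcases le_total s1 t with h2 | h2
    · refine (H53.abs_sub_le_of_deriv h2 (fun s hs => h.dy s ⟨m1.1.trans hs.1, hs.2.trans ht.2⟩)
        fun s hs => hp s ⟨m1.1.trans hs.1.le, hs.2.le.trans ht.2⟩).trans ?_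
      exact mul_le_mul_of_nonneg_left (by linarith [m1.1, ht.2]) K0
    · rw [abs_sub_comm]
      refine (H53.abs_sub_le_of_deriv h2 (fun s hs => h.dy s ⟨ht.1.trans hs.1, hs.2.trans m1.2⟩)
        fun s hs => hp s ⟨ht.1.trans hs.1.le, hs.2.le.trans m1.2⟩).trans ?_
      exact mul_le_mul_of_nonneg_left (by linarith [m1.2, ht.1]) K0
  have h2 := abs_sub_abs_le_abs_sub (y t) (y s1)
  have h3 : W * (18 * (α / l ^ 2) + β) * l = W * (18 * (α / l) + β * l) := by rw [← e2]; ring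
  have h4 : 0 ≤ β * l := by positivity
  nlinarith

theorem young1 (x : ℝ) {t : ℝ} (ht : 0 < t) : |x| ≤ 1 / t * (x ^ 2 / 2) + t / 2 := by
  rw [← sq_abs]
  have : 1 / t * (|x| ^ 2 / 2) + t / 2 - |x| = (|x| - t) ^ 2 / (2 * t) := by field_simp; ring
  have h : 0 ≤ (|x| - t) ^ 2 / (2 * t) := by positivity
  linarith

theorem young2 (x : ℝ) {t : ℝ} (ht : 0 < t) : |x| ≤ 1 / (3 * t ^ 2) * |x| ^ 3 + 2 * t / 3 := by
  have : 1 / (3 * t ^ 2) * |x| ^ 3 + 2 * t / 3 - |x| =
      (|x| - t) ^ 2 * (|x| + 2 * t) / (3 * t ^ 2) := by field_simp; ring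
  have h : 0 ≤ (|x| - t) ^ 2 * (|x| + 2 * t) / (3 * t ^ 2) := by positivity
  linarith

theorem young3 (x : ℝ) {t : ℝ} (ht : 0 < t) : |x| ^ 2 ≤ 2 / (3 * t) * |x| ^ 3 + t ^ 2 / 3 := by
  have : 2 / (3 * t) * |x| ^ 3 + t ^ 2 / 3 - |x| ^ 2 =
      (|x| - t) ^ 2 * (2 * |x| + t) / (3 * t) := by field_simp; ring
  have h : 0 ≤ (|x| - t) ^ 2 * (2 * |x| + t) / (3 * t) := by positivity
  linarith

/-- the radial system on a set -/
structure Sys (w : ℝ → ℝ) (s : Set ℝ) (F p u G q : ℝ → ℝ) : Prop where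
  dF : ∀ t ∈ s, HasDerivAt F (p t) t
  dp : ∀ t ∈ s, HasDerivAt (fun r => w r * p r) (w t * u t) t
  dG : ∀ t ∈ s, HasDerivAt G (q t) t
  dq : ∀ t ∈ s, HasDerivAt (fun r => w r * q r) (w t * (F t ^ 2 - F t)) t
  hG : ∀ t ∈ s, G t = |u t| * u t
  cu : ContinuousOn u s

theorem Sys.mono {s s' : Set ℝ} (h : Sys w s F p u G q) (hs : s' ⊆ s) : Sys w s' F p u G q :=
  ⟨fun t ht => h.dF t (hs ht), fun t ht => h.dp t (hs ht), fun t ht => h.dG t (hs ht),
    fun t ht => h.dq t (hs ht), fun t ht => h.hG t (hs ht), h.cu.mono hs⟩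

theorem Sys.cF {s : Set ℝ} (h : Sys w s F p u G q) : ContinuousOn F s := fun t ht =>
  (h.dF t ht).continuousAt.continuousWithinAt

theorem Sys.dJ {s : Set ℝ} (h : Sys w s F p u G q) {t : ℝ} (ht : t ∈ s) :
    HasDerivAt (fun r => w r * q r * F r - w r * p r * G r)
      (-(w t * (|u t| ^ 3 + F t ^ 2 * (1 - F t)))) t := by
  refine (((h.dq t ht).mul (h.dF t ht)).sub ((h.dp t ht).mul (h.dG t ht))).congr_deriv ?_
  rw [h.hG t ht, pow_succ |u t| 2, sq_abs]
  ring

/-- a weight that changes by a bounded factor along unit segments -/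
structure Wt (w : ℝ → ℝ) (a b W : ℝ) : Prop where
  cw : ContinuousOn w (Icc a b)
  w0 : ∀ t ∈ Icc a b, 0 < w t
  hw : ∀ s ∈ Icc a b, ∀ t ∈ Icc a b, |s - t| ≤ 1 → w s ≤ W * w t
  one : 1 ≤ W

theorem Wt.mono {a' b' : ℝ} (h : Wt w a b W) (ha : a ≤ a') (hb : b' ≤ b) : Wt w a' b' W :=
  have hs := Icc_subset_Icc ha hb
  ⟨h.cw.mono hs, fun t ht => h.w0 t (hs ht), fun s h1 t h2 => h.hw s (hs h1) t (hs h2), h.one⟩

theorem Wt.all (h : Wt w a (a + l) W) (hl : l ≤ 1) :
    ∀ s ∈ Icc a (a + l), ∀ t ∈ Icc a (a + l), w s ≤ W * w t := fun s hs t ht =>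
  h.hw s hs t ht (abs_le.2 ⟨by linarith [hs.1, ht.2], by linarith [hs.2, ht.1]⟩)

theorem Sys.small (h : Sys w (Icc a (a + l)) F p u G q) (hw : Wt w a (a + l) W) (hl : 0 < l)
    (hl1 : l ≤ 1) (hδ : 0 < δ) (hδ1 : δ ≤ 1)
    (he : ∫ t in a..a + l, (|u t| ^ 3 + F t ^ 2 / 2) ≤ δ ^ 3 * l ^ 13) :
    (∀ t ∈ Icc a (a + l), |F t| ≤ 5 / 2 * (21 * W) * δ * l ^ 6) ∧
    ((∀ t ∈ Icc a (a + l), |F t| ≤ 1 / 2) → ∀ t ∈ Icc a (a + l),
      |q t * F t - p t * G t| ≤ 17 * (21 * W) ^ 2 * δ ^ 2 * l ^ 13) := by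
  have hab : a ≤ a + l := by linarith
  have cF := h.cF
  have cu := h.cu
  have cG : ContinuousOn G (Icc a (a + l)) := H53.contOn_of_deriv h.dG
  have iE : IntervalIntegrable (fun t => |u t| ^ 3 + F t ^ 2 / 2) volume a (a + l) :=
    cint (by fun_prop) hab
  have W0 : 0 < W := by linarith [hw.one]
  have a1 : ∫ t in a..a + l, |F t| ≤ 3 / 2 * δ * l ^ 7 := by
    have := int_le_of (c := 1 / (δ * l ^ 6)) (d := δ * l ^ 6 / 2) hab (cint cF.abs hab) iE
      fun s _ => (young1 (F s) (by positivity : 0 < δ * l ^ 6)).trans (by gcongr; simp)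
    refine this.trans ((add_le_add_left (mul_le_mul_of_nonneg_left he (by positivity)) _).trans ?_)
    have e : 1 / (δ * l ^ 6) * (δ ^ 3 * l ^ 13) = δ * (δ * l ^ 7) := by field_simp
    have : δ * (δ * l ^ 7) ≤ δ * l ^ 7 := mul_le_of_le_one_left (by positivity) hδ1
    rw [e]
    nlinarith
  have a2 : ∫ t in a..a + l, |u t| ≤ δ * l ^ 5 := by
    have := int_le_of (c := 1 / (3 * (δ * l ^ 4) ^ 2)) (d := 2 * (δ * l ^ 4) / 3) hab
      (cint cu.abs hab) iE
      fun s _ => (young2 (u s) (by positivity : 0 < δ * l ^ 4)).trans (by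
        gcongr; linarith [sq_nonneg (F s)])
    refine this.trans ((add_le_add_left (mul_le_mul_of_nonneg_left he (by positivity)) _).trans
      (le_of_eq ?_))
    field_simp
    ring
  have a3 : ∫ t in a..a + l, |G t| ≤ δ * l ^ 9 := by
    have := int_le_of (c := 2 / (3 * (δ * l ^ 4))) (d := (δ * l ^ 4) ^ 2 / 3) hab
      (cint cG.abs hab) iE fun s hs => by
        rw [h.hG s (Ioo_subset_Icc_self hs), abs_mul, abs_abs, ← sq]
        exact (young3 (u s) (by positivity : 0 < δ * l ^ 4)).trans (by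
          gcongr; linarith [sq_nonneg (F s)])
    refine this.trans ((add_le_add_left (mul_le_mul_of_nonneg_left he (by positivity)) _).trans ?_)
    have e : 2 / (3 * (δ * l ^ 4)) * (δ ^ 3 * l ^ 13) + (δ * l ^ 4) ^ 2 / 3 * (a + l - a) =
        δ * (δ * l ^ 9) := by field_simp; ring
    rw [e]
    exact mul_le_of_le_one_left (by positivity) hδ1
  have L1 := Loc.interp ⟨h.dF, h.dp, hw.cw, cu, hw.w0, hw.all hl1⟩ hl hw.one a1 a2
  have e1 : 21 * W * (3 / 2 * δ * l ^ 7 / l ^ 2 + δ * l ^ 5) = 5 / 2 * (21 * W) * δ * l ^ 5 := by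
    field_simp; ring
  have e2 : 21 * W * (3 / 2 * δ * l ^ 7 / l + δ * l ^ 5 * l) = 5 / 2 * (21 * W) * δ * l ^ 6 := by
    field_simp; ring
  rw [e1, e2] at L1
  refine ⟨fun t ht => (L1 t ht).2, fun hF t ht => ?_⟩
  have a4 : ∫ t in a..a + l, |F t ^ 2 - F t| ≤ 9 / 4 * δ * l ^ 7 := by
    have := int_le_of (f := fun t => |F t ^ 2 - F t|) (c := 3 / 2) (d := 0) hab
      (cint (by fun_prop) hab) (cint cF.abs hab) fun s hs => by
        have h1 := hF s (Ioo_subset_Icc_self hs)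
        have h2 := abs_sub (F s ^ 2) (F s)
        rw [abs_pow] at h2
        nlinarith [abs_nonneg (F s)]
    linarith
  have L2 := Loc.interp (q := fun t => F t ^ 2 - F t)
    ⟨h.dG, h.dq, hw.cw, by fun_prop, hw.w0, hw.all hl1⟩ hl hw.one a3 a4 t ht
  have e3 : 21 * W * (δ * l ^ 9 / l ^ 2 + 9 / 4 * δ * l ^ 7) = 13 / 4 * (21 * W) * δ * l ^ 7 := by
    field_simp; ring
  have e4 : 21 * W * (δ * l ^ 9 / l + 9 / 4 * δ * l ^ 7 * l) = 13 / 4 * (21 * W) * δ * l ^ 8 := by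
    field_simp; ring
  rw [e3, e4] at L2
  have h1 := mul_le_mul L2.1 (L1 t ht).2 (abs_nonneg _) (by positivity)
  have h2 := mul_le_mul (L1 t ht).1 L2.2 (abs_nonneg _) (by positivity)
  have h3 := abs_sub (q t * F t) (p t * G t)
  rw [abs_mul, abs_mul] at h3
  have h4 : 0 ≤ (21 * W) ^ 2 * δ ^ 2 * l ^ 13 := by positivity
  nlinarith

theorem Sys.drop (h : Sys w (Icc a b) F p u G q) (cw : ContinuousOn w (Icc a b)) (hab : a ≤ b) :
    (w a * q a * F a - w a * p a * G a) - (w b * q b * F b - w b * p b * G b) =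
      ∫ t in a..b, w t * (|u t| ^ 3 + F t ^ 2 * (1 - F t)) := by
  have cF := h.cF
  have cu := h.cu
  have := integral_eq_sub_of_hasDerivAt (fun t ht => h.dJ (uIcc_of_le hab ▸ ht))
    (cint (by fun_prop) hab)
  rw [intervalIntegral.integral_neg] at this
  linarith

theorem Sys.anti (h : Sys w (Icc a b) F p u G q) (w0 : ∀ t ∈ Icc a b, 0 < w t) (hab : a ≤ b)
    (hF : ∀ t ∈ Icc a b, |F t| ≤ 1 / 2) :
    w b * q b * F b - w b * p b * G b ≤ w a * q a * F a - w a * p a * G a :=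
  H53.anti_of_deriv hab (fun _ ht => h.dJ ht) fun t ht => by
    have ht' := Ioo_subset_Icc_self ht
    have h1 : 0 ≤ 1 - F t := by linarith [(abs_le.1 (hF t ht')).2]
    have := w0 t ht'
    have : 0 ≤ w t * (|u t| ^ 3 + F t ^ 2 * (1 - F t)) := by positivity
    linarith

theorem Sys.step (h : Sys w (Icc a (a + l)) F p u G q) (hw : Wt w a (a + l) W) (hl : 0 < l)
    (hl1 : l ≤ 1) (hF : ∀ t ∈ Icc a (a + l), |F t| ≤ 1 / 2)
    (hJ : w a * q a * F a - w a * p a * G a = w a * l ^ 13) :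
    w (a + l) * q (a + l) * F (a + l) - w (a + l) * p (a + l) * G (a + l) ≤
      (1 - (1 / (105 * W)) ^ 3 / W) * (w a * l ^ 13) := by
  have hab : a ≤ a + l := by linarith
  have W1 := hw.one
  have W0 : 0 < W := by linarith
  have ma : a ∈ Icc a (a + l) := ⟨le_rfl, hab⟩
  have wa := hw.w0 a ma
  have cF := h.cF
  have cu := h.cu
  have cw := hw.cw
  by_contra hc
  push Not at hc
  have h1 := h.drop cw hab
  have h2 := int_le_of (f := fun t => |u t| ^ 3 + F t ^ 2 / 2)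
    (g := fun t => w t * (|u t| ^ 3 + F t ^ 2 * (1 - F t))) (c := W / w a) (d := 0) hab
    (cint (by fun_prop) hab) (cint (by fun_prop) hab) fun s hs => by
      have hs' := Ioo_subset_Icc_self hs
      have h3 := hw.all hl1 a ma s hs'
      have h4 : F s ^ 2 / 2 ≤ F s ^ 2 * (1 - F s) := by
        nlinarith [(abs_le.1 (hF s hs')).2, sq_nonneg (F s)]
      have h5 : 1 ≤ W / w a * w s := by rw [div_mul_eq_mul_div, le_div_iff₀ wa]; linarith
      have h6 : 0 ≤ |u s| ^ 3 + F s ^ 2 / 2 := by positivity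
      rw [add_zero, ← mul_assoc]
      nlinarith
  have h3 : ∫ t in a..a + l, (|u t| ^ 3 + F t ^ 2 / 2) ≤ (1 / (105 * W)) ^ 3 * l ^ 13 := by
    refine h2.trans ?_
    rw [← h1, hJ, zero_mul, add_zero]
    calc _ ≤ W / w a * ((1 / (105 * W)) ^ 3 / W * (w a * l ^ 13)) :=
          mul_le_mul_of_nonneg_left (by linarith) (by positivity)
      _ = _ := by field_simp
  have h4 := (h.small hw hl hl1 (by positivity)
    (by rw [div_le_one (by positivity)]; linarith) h3).2 hF a ma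
  have e : 17 * (21 * W) ^ 2 * (1 / (105 * W)) ^ 2 = 17 / 25 := by field_simp; ring
  rw [e] at h4
  have h5 : q a * F a - p a * G a = l ^ 13 := mul_left_cancel₀ wa.ne' (by linarith)
  have := pow_pos hl 13
  rw [h5, abs_of_pos this] at h4
  linarith

/-- extinction at a finite distance -/
theorem vanish (W : ℝ) : ∃ L > 0, ∀ {w F p u G q : ℝ → ℝ} {a w₀ : ℝ},
    Sys w (Icc a (a + L)) F p u G q → Wt w a (a + L) W → (∀ t ∈ Icc a (a + L), |F t| ≤ 1 / 2) →
    (∀ t ∈ Icc a (a + L), w₀ ≤ w t) → 0 < w₀ → w a * q a * F a - w a * p a * G a ≤ w₀ →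
    w (a + L) * q (a + L) * F (a + L) - w (a + L) * p (a + L) * G (a + L) ≤ 0 := by
  by_cases W1 : 1 ≤ W
  swap
  · exact ⟨1, one_pos, fun _ hw => absurd hw.one W1⟩
  have W0 : 0 < W := by linarith
  obtain ⟨η, hη, η0, η1⟩ : ∃ η, η = (1 / (105 * W)) ^ 3 / W ∧ 0 < η ∧ η ≤ 1 := by
    refine ⟨_, rfl, by positivity, ?_⟩
    rw [div_le_one W0]
    exact (pow_le_one₀ (by positivity) (by rw [div_le_one (by positivity)]; linarith)).trans W1
  obtain ⟨c, hc, c1⟩ : ∃ c, c * η = 13 ∧ 1 ≤ c :=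
    ⟨13 / η, by field_simp, by rw [le_div_iff₀ η0]; linarith⟩
  refine ⟨c + 1, by linarith, fun {w F p u G q a w₀} h hw hF h0 p0 hJ => ?_⟩
  set J : ℝ → ℝ := fun r => w r * q r * F r - w r * p r * G r with hJd
  have cJ : ContinuousOn J (Icc a (a + c)) := fun t ht =>
    (h.dJ ⟨ht.1, by linarith [ht.2]⟩).continuousAt.continuousWithinAt
  have cS : IsCompact (Icc a (a + c) ∩ (fun r => w₀ * (a + c - r) ^ 13 - c ^ 13 * J r) ⁻¹' Ici 0) :=
    isCompact_Icc.of_isClosed_subset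
      (ContinuousOn.preimage_isClosed_of_isClosed (by fun_prop) isClosed_Icc isClosed_Ici)
      inter_subset_left
  obtain ⟨r, ⟨hr, hr'⟩, hmax⟩ := cS.exists_isGreatest ⟨a, ⟨le_rfl, by linarith⟩, by
    simp only [mem_preimage, mem_Ici, add_sub_cancel_left]
    rw [sub_nonneg, mul_comm w₀]
    exact mul_le_mul_of_nonneg_left hJ (pow_pos (by linarith : 0 < c) 13).le⟩
  simp only [mem_preimage, mem_Ici] at hr'
  have mr : r ∈ Icc a (a + (c + 1)) := ⟨hr.1, by linarith [hr.2]⟩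
  have sub : Icc r (a + (c + 1)) ⊆ Icc a (a + (c + 1)) := Icc_subset_Icc hr.1 le_rfl
  refine ((h.mono sub).anti (fun t ht => hw.w0 t (sub ht)) mr.2 fun t ht => hF t (sub ht)).trans ?_
  by_contra hpos
  push Not at hpos
  change 0 < J r at hpos
  have wr := hw.w0 r mr
  obtain ⟨l, hl, e⟩ : ∃ l, 0 < l ∧ l ^ 13 = J r / w r :=
    ⟨(J r / w r) ^ ((13 : ℕ) : ℝ)⁻¹, by positivity,
      Real.rpow_inv_natCast_pow (by positivity) (by norm_num)⟩
  have eJ : J r = w r * l ^ 13 := by rw [e]; field_simp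
  have d0 : 0 ≤ a + c - r := by linarith [hr.2]
  have l13 := pow_pos hl 13
  have c13 := pow_pos (by linarith : 0 < c) 13
  have h1 : c * l ≤ a + c - r := by
    refine le_of_pow_le_pow_left₀ (n := 13) (by norm_num) d0 (le_of_mul_le_mul_left ?_ p0)
    rw [mul_pow]
    calc _ ≤ w r * (c ^ 13 * l ^ 13) := mul_le_mul_of_nonneg_right (h0 r mr) (mul_pos c13 l13).le
      _ = c ^ 13 * J r := by rw [eJ, mul_left_comm]
      _ ≤ _ := sub_nonneg.1 hr'
  have c0 : 0 < c := by linarith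
  have l1 : l ≤ 1 := le_of_mul_le_mul_left (by linarith [hr.1]) c0
  have l2 : l ≤ c * l := le_mul_of_one_le_left hl.le c1
  have sub2 : Icc r (r + l) ⊆ Icc a (a + (c + 1)) := Icc_subset_Icc hr.1 (by linarith [hr.2])
  have h2 := (h.mono sub2).step (hw.mono hr.1 (by linarith [hr.2])) hl l1
    (fun t ht => hF t (sub2 ht)) eJ
  rw [← hη, ← eJ] at h2
  change J (r + l) ≤ _ at h2
  have h3 : (1 - η / 13) * (a + c - r) ≤ a + c - (r + l) := by
    have h3 := mul_le_mul_of_nonneg_left h1 η0.le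
    rw [← mul_assoc, mul_comm η, hc] at h3
    linarith
  have h4 : 1 - η ≤ (1 - η / 13) ^ 13 := by
    have := one_add_mul_le_pow (a := -(η / 13)) (by linarith) 13
    push_cast at this
    rw [← sub_eq_add_neg] at this
    linarith
  have h5 := pow_le_pow_left₀ (mul_nonneg (by linarith) d0) h3 13
  rw [mul_pow] at h5
  have h6 := mul_le_mul_of_nonneg_right h4 (pow_nonneg d0 13)
  have : r + l ≤ r := hmax ⟨⟨by linarith [hr.1], by linarith⟩, by
    simp only [mem_preimage, mem_Ici]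
    rw [sub_nonneg]
    calc _ ≤ c ^ 13 * ((1 - η) * J r) := mul_le_mul_of_nonneg_left h2 c13.le
      _ = (1 - η) * (c ^ 13 * J r) := mul_left_comm _ _ _
      _ ≤ (1 - η) * (w₀ * (a + c - r) ^ 13) :=
        mul_le_mul_of_nonneg_left (sub_nonneg.1 hr') (sub_nonneg.2 η1)
      _ = w₀ * ((1 - η) * (a + c - r) ^ 13) := mul_left_comm _ _ _
      _ ≤ _ := mul_le_mul_of_nonneg_left (h6.trans h5) p0.le⟩
  exact absurd this (not_le.2 (lt_add_of_pos_right r hl))

/-- no drop of the flux means no solution -/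
theorem Sys.zero (h : Sys w (Icc a b) F p u G q) (w0 : ∀ t ∈ Icc a b, 0 < w t)
    (hF : ∀ t ∈ Icc a b, |F t| ≤ 1 / 2) (ha : w a * q a * F a - w a * p a * G a ≤ 0)
    (hb : 0 ≤ w b * q b * F b - w b * p b * G b) : ∀ t ∈ Ioo a b, F t = 0 ∧ u t = 0 := by
  intro t ht
  have ht' := Ioo_subset_Icc_self ht
  have e : (fun r => w r * q r * F r - w r * p r * G r) =ᶠ[𝓝 t] fun _ => 0 := by
    filter_upwards [Ioo_mem_nhds ht.1 ht.2] with s hs
    have s1 := Icc_subset_Icc (le_refl a) hs.2.le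
    have s2 := Icc_subset_Icc hs.1.le (le_refl b)
    have h1 := (h.mono s1).anti (fun t ht => w0 t (s1 ht)) hs.1.le fun t ht => hF t (s1 ht)
    have h2 := (h.mono s2).anti (fun t ht => w0 t (s2 ht)) hs.2.le fun t ht => hF t (s2 ht)
    linarith
  have h1 := (h.dJ ht').unique ((hasDerivAt_const t (0 : ℝ)).congr_of_eventuallyEq e)
  rw [neg_eq_zero, mul_eq_zero, or_iff_right (w0 t ht').ne'] at h1
  have h2 : 0 < 1 - F t := by linarith [(abs_le.1 (hF t ht')).2]
  have h3 : 0 ≤ |u t| ^ 3 := by positivity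
  have h4 : 0 ≤ F t ^ 2 * (1 - F t) := by positivity
  refine ⟨?_, ?_⟩
  · have : F t ^ 2 * (1 - F t) = 0 := by linarith
    simpa [h2.ne'] using this
  · have : |u t| ^ 3 = 0 := by linarith
    simpa using this

end Pool.Agent.MP_6aeaf9_an.H21
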