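import Pool.Agent.MP_6aeaf9_an.H21.Cut

/-! From radial profiles to functions on Euclidean space. -/

namespace Pool.Agent.MP_6aeaf9_an.H21

open Set Filter Topology MeasureTheory

variable {m n : ℕ} {R c : ℝ} {g y p q : ℝ → ℝ}

theorem cont_ext (hg : ContinuousOn g (Ioi 0)) (h : Tendsto g (𝓝[>] 0) (𝓝 c)) :
    Continuous fun r => if 0 < r then g r else c := by
  refine continuous_iff_continuousAt.2 fun r => ?_
  rcases lt_trichotomy r 0 with k | rfl | k
  · refine (continuousAt_const (y := c)).congr ?_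
    filter_upwards [Iio_mem_nhds k] with t ht
    exact (if_neg (not_lt.2 (le_of_lt ht))).symm
  · refine continuousAt_iff_continuous_left'_right'.2 ⟨?_, ?_⟩
    · exact (continuousWithinAt_const (b := c)).congr
        (fun t ht => if_neg (not_lt.2 (le_of_lt ht))) (by simp)
    · unfold ContinuousWithinAt
      simp only [lt_irrefl, if_false]
      exact h.congr' (Eventually.mono self_mem_nhdsWithin fun t ht => (if_pos ht).symm)
  · refine (hg.continuousAt (Ioi_mem_nhds k)).congr ?_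
    filter_upwards [Ioi_mem_nhds k] with t ht
    exact (if_pos ht).symm

theorem lim_of_deriv (d : ∀ r > 0, HasDerivAt y (p r) r) (hp : Cb R 0 p) (hR : 0 < R) :
    ∃ c, Tendsto y (𝓝[>] 0) (𝓝 c) := by
  obtain ⟨C, hC⟩ := hp.prim_le (by norm_num)
  have t0 : Tendsto (fun r => ∫ s in (0 : ℝ)..r, p s) (𝓝[>] 0) (𝓝 0) := by
    refine squeeze_zero_norm' (a := fun r => C * r) ?_ ?_
    · filter_upwards [Ioc_mem_nhdsGT hR] with r hr
      simpa using hC r hr
    · have : ContinuousAt (fun r : ℝ => C * r) 0 := by fun_prop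
      simpa using this.tendsto.mono_left (nhdsWithin_le_nhds (s := Ioi 0))
  refine ⟨_, (t0.const_add (y R - ∫ s in (0 : ℝ)..R, p s)).congr' ?_⟩
  filter_upwards [self_mem_nhdsWithin] with r hr
  have r0 : 0 < r := hr
  have h1 := intervalIntegral.integral_eq_sub_of_hasDerivAt (a := r) (b := R)
    (fun t ht => d t (lt_of_lt_of_le (lt_min r0 hR) ht.1)) (hp.i0 hR r0.le hR.le)
  have h2 := intervalIntegral.integral_add_adjacent_intervals (hp.i0 hR le_rfl r0.le)
    (hp.i0 hR r0.le hR.le)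
  linarith

theorem lap_eq {f : EuclideanSpace ℝ (Fin n) → ℝ} (x : EuclideanSpace ℝ (Fin n)) :
    Laplacian.laplacian f x = ∑ i, fderiv ℝ (fderiv ℝ f) x (EuclideanSpace.single i 1)
      (EuclideanSpace.single i 1) := by
  rw [InnerProductSpace.laplacian_eq_iteratedFDeriv_orthonormalBasis f
    (EuclideanSpace.basisFun (Fin n) ℝ)]
  refine Finset.sum_congr rfl fun i _ => ?_
  rw [iteratedFDeriv_two_apply]
  simp

theorem rad_field {E : Type} [NormedAddCommGroup E] [InnerProductSpace ℝ E] {k e : ℝ → ℝ}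
    (ck : Continuous k) (ce : Continuous e) (e0 : e 0 = 0)
    (dk : ∀ r > 0, HasDerivAt k (e r / r) r) :
    (∀ x : E, HasFDerivAt (fun x : E => k ‖x‖ • x) (k ‖x‖ • ContinuousLinearMap.id ℝ E +
      ((e ‖x‖ / ‖x‖ ^ 2) • innerSL ℝ x).smulRight x) x) ∧ ContDiff ℝ 1 fun x : E => k ‖x‖ • x := by
  have dV : ∀ x : E, HasFDerivAt (fun x : E => k ‖x‖ • x) (k ‖x‖ • ContinuousLinearMap.id ℝ E +
      ((e ‖x‖ / ‖x‖ ^ 2) • innerSL ℝ x).smulRight x) x := fun x => by
    rcases eq_or_ne x 0 with rfl | x0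
    · rw [hasFDerivAt_iff_isLittleO_nhds_zero]
      have h1 : (fun x : E => k ‖x‖ - k 0) =o[𝓝 0] fun _ => (1 : ℝ) := by
        rw [Asymptotics.isLittleO_one_iff]
        have : ContinuousAt (fun x : E => k ‖x‖ - k 0) 0 := by fun_prop
        simpa using this.tendsto
      simpa [sub_smul] using h1.smul_isBigO (Asymptotics.isBigO_refl (fun x : E => x) _)
    · have n0 : 0 < ‖x‖ := norm_pos_iff.2 x0
      have h1 := (hasStrictFDerivAt_norm_sq x).hasFDerivAt.sqrt (pow_pos n0 2).ne'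
      simp only [Real.sqrt_sq (norm_nonneg _)] at h1
      refine (((dk _ n0).comp_hasFDerivAt x h1).fun_smul (hasFDerivAt_id x)).congr_fderiv ?_
      simp only [Function.comp, id]
      congr 2
      ext v
      simp only [smul_apply, smul_eq_mul, nsmul_eq_mul, Nat.cast_ofNat]
      field_simp
  refine ⟨dV, contDiff_one_iff_hasFDerivAt.2 ⟨_, ?_, dV⟩⟩
  refine Continuous.add (by fun_prop) (continuous_iff_continuousAt.2 fun x => ?_)
  rcases eq_or_ne x 0 with rfl | x0
  · have t : Tendsto (fun x : E => |e ‖x‖|) (𝓝 0) (𝓝 0) := by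
      simpa [e0] using (ce.comp (continuous_norm (E := E))).abs.tendsto 0
    unfold ContinuousAt
    simp only [ContinuousLinearMap.smulRight_zero]
    refine squeeze_zero_norm (fun x => ?_) t
    rw [ContinuousLinearMap.norm_smulRight_apply, norm_smul, innerSL_apply_norm, norm_div,
      Real.norm_eq_abs, Real.norm_of_nonneg (sq_nonneg _), mul_assoc, ← sq]
    rcases eq_or_ne ‖x‖ 0 with l | l
    · simp [l]
    · rw [div_mul_cancel₀ _ (pow_ne_zero 2 l)]
  · have n0 : ‖x‖ ^ 2 ≠ 0 := pow_ne_zero 2 (norm_ne_zero_iff.2 x0)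
    have c0 : ContinuousAt (fun x : E => e ‖x‖ / ‖x‖ ^ 2) x := by fun_prop (disch := exact n0)
    exact ((ContinuousLinearMap.smulRightL ℝ E E).continuous.continuousAt.comp
      (c0.smul (innerSL ℝ).continuous.continuousAt)).clm_apply continuousAt_id

theorem Sol.lift (S : Sol m y p q) (hq : Tendsto q (𝓝[>] 0) (𝓝 c)) :
    ∃ Y : EuclideanSpace ℝ (Fin (m + 1)) → ℝ, ContDiff ℝ 2 Y ∧
      (∀ x x', ‖x‖ = ‖x'‖ → Y x = Y x') ∧
      ∀ x ≠ 0, Y x = y ‖x‖ ∧ Laplacian.laplacian Y x = q ‖x‖ := by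
  have m1 : (m : ℝ) + 1 ≠ 0 := by positivity
  have t1 : Tendsto (fun r => p r / r) (𝓝[>] 0) (𝓝 (c / (m + 1))) := by
    have := HasDerivAt.lhopital_zero_nhdsGT (g := fun r : ℝ => r ^ (m + 1))
      (Eventually.mono self_mem_nhdsWithin S.dp)
      (Eventually.of_forall fun r => hasDerivAt_pow (m + 1) r)
      (Eventually.mono self_mem_nhdsWithin fun r (hr : 0 < r) => by positivity) S.lim
      (by
        have : ContinuousAt (fun r : ℝ => r ^ (m + 1)) 0 := by fun_prop
        simpa using this.tendsto.mono_left (nhdsWithin_le_nhds (s := Ioi 0)))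
      ((hq.div_const (m + 1)).congr' (Eventually.mono self_mem_nhdsWithin fun r (hr : 0 < r) => by
        simp only [Nat.add_sub_cancel]
        push_cast
        field_simp))
    exact this.congr' (Eventually.mono self_mem_nhdsWithin fun r (hr : 0 < r) => by
      field_simp
      ring)
  have cp : ContinuousOn (fun r => p r / r) (Ioi 0) :=
    S.cp.div continuousOn_id fun r hr => (mem_Ioi.1 hr).ne'
  obtain ⟨k, ck, hk⟩ : ∃ k : ℝ → ℝ, Continuous k ∧ ∀ r > 0, k r = p r / r :=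
    ⟨_, cont_ext cp t1, fun r hr => if_pos hr⟩
  obtain ⟨e, ce, e0, he⟩ : ∃ e : ℝ → ℝ, Continuous e ∧ e 0 = 0 ∧
      ∀ r > 0, e r = q r - (m + 1) * (p r / r) :=
    ⟨_, cont_ext (g := fun r => q r - (m + 1) * (p r / r)) (S.cq.sub (continuousOn_const.mul cp))
      (hq.sub (t1.const_mul ((m : ℝ) + 1))), by
      simp only [lt_irrefl, if_false]
      field_simp
      ring, fun r hr => if_pos hr⟩
  have dk : ∀ r > 0, HasDerivAt k (e r / r) r := fun r hr => by
    have h1 := (S.dp r hr).fun_div (hasDerivAt_pow (m + 1) r) (pow_pos hr _).ne'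
    refine (h1.congr_of_eventuallyEq ?_).congr_deriv ?_
    · filter_upwards [Ioi_mem_nhds hr] with t ht
      have : t ≠ 0 := (mem_Ioi.1 ht).ne'
      rw [hk t ht]
      field_simp
      ring
    · rw [he r hr, Nat.add_sub_cancel]
      push_cast
      field_simp
      ring
  let Φ : ℝ → ℝ := fun s => y 1 + ∫ t in (1 : ℝ)..s, k √t / 2
  have dΦ : ∀ s, HasDerivAt Φ (k √s / 2) s := fun s =>
    ((by fun_prop : Continuous fun t => k √t / 2).integral_hasStrictDerivAt 1
      s).hasDerivAt.const_add _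
  have eΦ : ∀ r > 0, Φ (r ^ 2) = y r := fun r hr => by
    have d : ∀ t > 0, HasDerivAt (fun t => Φ (t ^ 2) - y t) 0 t := fun t ht => by
      refine (((dΦ (t ^ 2)).comp t (hasDerivAt_pow 2 t)).sub (S.dy t ht)).congr_deriv ?_
      rw [Real.sqrt_sq ht.le, hk t ht]
      push_cast
      field_simp
      ring
    have h1 : Φ (1 ^ 2) - y 1 = 0 := by simp [Φ]
    rcases le_total r 1 with l | l
    · have := H53.abs_sub_le_of_deriv (c := 0) l (fun t ht => d t (hr.trans_le ht.1)) (by simp)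
      rw [h1, zero_mul, abs_nonpos_iff] at this
      linarith
    · have := H53.abs_sub_le_of_deriv (c := 0) l (fun t ht => d t (one_pos.trans_le ht.1)) (by simp)
      rw [h1, zero_mul, abs_nonpos_iff] at this
      linarith
  have dY : ∀ x : EuclideanSpace ℝ (Fin (m + 1)),
      HasFDerivAt (fun x => Φ (‖x‖ ^ 2)) (innerSL ℝ (k ‖x‖ • x)) x := fun x => by
    refine ((dΦ (‖x‖ ^ 2)).comp_hasFDerivAt x
      (hasStrictFDerivAt_norm_sq x).hasFDerivAt).congr_fderiv ?_
    ext v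
    simp [Real.sqrt_sq (norm_nonneg x)]
    ring
  obtain ⟨dV, sV⟩ := rad_field (E := EuclideanSpace ℝ (Fin (m + 1))) ck ce e0 dk
  refine ⟨fun x => Φ (‖x‖ ^ 2), (contDiff_succ_iff_hasFDerivAt (n := 1)).2
    ⟨_, (innerSL ℝ).contDiff.comp sV, dY⟩, fun x x' h => by simp only [h], fun x x0 => ?_⟩
  have n0 : 0 < ‖x‖ := norm_pos_iff.2 x0
  refine ⟨eΦ _ n0, ?_⟩
  have h0 : HasFDerivAt (fun x => innerSL ℝ (k ‖x‖ • x)) _ x :=
    (innerSL ℝ).hasFDerivAt.comp x (dV x)
  rw [lap_eq, funext fun x => (dY x).fderiv, h0.fderiv]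
  have h1 : ∑ i, x i * x i = ‖x‖ ^ 2 := by
    rw [EuclideanSpace.norm_sq_eq]
    simp [sq]
  have h2 : ∀ i : Fin (m + 1), ((innerSL ℝ).comp (k ‖x‖ • ContinuousLinearMap.id ℝ _ +
      ((e ‖x‖ / ‖x‖ ^ 2) • innerSL ℝ x).smulRight x)) (EuclideanSpace.single i 1)
      (EuclideanSpace.single i 1) = k ‖x‖ + e ‖x‖ / ‖x‖ ^ 2 * (x i * x i) := fun i => by
    simp [EuclideanSpace.inner_single_right, mul_assoc]
  simp only [h2, Finset.sum_add_distrib, ← Finset.mul_sum, h1]
  rw [div_mul_cancel₀ _ (pow_pos n0 2).ne', he _ n0, hk _ n0]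
  simp

theorem green_space {f φ : EuclideanSpace ℝ (Fin n) → ℝ} (hf : ContDiff ℝ 2 f)
    (hφ : ContDiff ℝ 2 φ) (hc : HasCompactSupport φ) :
    ∫ x, f x * Laplacian.laplacian φ x = ∫ x, Laplacian.laplacian f x * φ x := by
  have c1 : ∀ {f : EuclideanSpace ℝ (Fin n) → ℝ}, ContDiff ℝ 2 f → ∀ v,
      ContDiff ℝ 1 fun x => fderiv ℝ f x v := fun hf v =>
    (hf.fderiv_right (m := 1) le_rfl).clm_apply contDiff_const
  have c0 : ∀ {f : EuclideanSpace ℝ (Fin n) → ℝ}, ContDiff ℝ 1 f → ∀ v,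
      Continuous fun x => fderiv ℝ f x v := fun hf v =>
    (hf.continuous_fderiv one_ne_zero).clm_apply continuous_const
  have e : ∀ {f : EuclideanSpace ℝ (Fin n) → ℝ}, ContDiff ℝ 2 f → ∀ x v,
      fderiv ℝ (fderiv ℝ f) x v v = fderiv ℝ (fun x => fderiv ℝ f x v) x v := fun hf x v => by
    rw [fderiv_clm_apply ((hf.fderiv_right (m := 1) le_rfl).differentiable one_ne_zero x)
      (differentiableAt_const _)]
    simp
  have s1 := fun v => hc.fderiv_apply (𝕜 := ℝ) v
  have s2 := fun v => (s1 v).fderiv_apply (𝕜 := ℝ) v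
  have i1 : ∀ v, Integrable fun x => f x * fderiv ℝ (fun x => fderiv ℝ φ x v) x v := fun v =>
    (hf.continuous.mul (c0 (c1 hφ v) v)).integrable_of_hasCompactSupport (s2 v).mul_left
  have i2 : ∀ v, Integrable fun x => fderiv ℝ (fun x => fderiv ℝ f x v) x v * φ x := fun v =>
    ((c0 (c1 hf v) v).mul hφ.continuous).integrable_of_hasCompactSupport hc.mul_left
  simp only [lap_eq, e hf, e hφ, Finset.mul_sum, Finset.sum_mul]
  rw [integral_finsetSum _ fun i _ => i1 _, integral_finsetSum _ fun i _ => i2 _]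
  refine Finset.sum_congr rfl fun i _ => ?_
  generalize EuclideanSpace.single i (1 : ℝ) = v
  have i3 : Integrable fun x => fderiv ℝ f x v * fderiv ℝ φ x v :=
    ((c1 hf v).continuous.mul (c1 hφ v).continuous).integrable_of_hasCompactSupport (s1 v).mul_left
  rw [integral_mul_fderiv_eq_neg_fderiv_mul_of_integrable i3 (i1 v)
      ((hf.continuous.mul (c1 hφ v).continuous).integrable_of_hasCompactSupport (s1 v).mul_left)
      (fun x _ => hf.differentiable two_ne_zero x)
      (fun x _ => (c1 hφ v).differentiable one_ne_zero x),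
    integral_mul_fderiv_eq_neg_fderiv_mul_of_integrable (i2 v) i3
      (((c1 hf v).continuous.mul hφ.continuous).integrable_of_hasCompactSupport hc.mul_left)
      (fun x _ => (c1 hf v).differentiable one_ne_zero x)
      (fun x _ => hφ.differentiable two_ne_zero x), neg_neg]

theorem main (m : ℕ) : ∃ f : EuclideanSpace ℝ (Fin (m + 1)) → ℝ, ContDiff ℝ 2 f ∧
    HasCompactSupport f ∧ f ≠ 0 ∧ (∀ x x', ‖x‖ = ‖x'‖ → f x = f x') ∧
    ∀ φ : EuclideanSpace ℝ (Fin (m + 1)) → ℝ, ContDiff ℝ 2 φ → HasCompactSupport φ →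
      -(∫ x, |Laplacian.laplacian f x| * Laplacian.laplacian f x * Laplacian.laplacian φ x) +
        (∫ x, (f x ^ 2 - f x) * φ x) = 0 := by
  have m0 : (0 : ℝ) ≤ m := Nat.cast_nonneg m
  obtain ⟨F, p, u, G, q, P⟩ := prof m
  have bh : Cb 1 0 fun r => F r ^ 2 - F r := ((P.bF.pow 2).mono (by simp)).sub P.bF
  obtain ⟨F₀, hF⟩ := lim_of_deriv P.s1.dy
    ((P.s1.cbp P.bu (by linarith) one_pos).mono (by norm_num)) one_pos
  obtain ⟨G₀, hG⟩ := lim_of_deriv P.s2.dy
    ((P.s2.cbp bh (by linarith) one_pos).mono (by norm_num)) one_pos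
  have hu : Tendsto u (𝓝[>] 0) (𝓝 (sg G₀)) := ((sg_cont.tendsto _).comp hG).congr'
    (Eventually.mono self_mem_nhdsWithin fun r hr => by
      simp only [Function.comp, P.hG r hr, sg_abs])
  obtain ⟨f, cf, rf, ef⟩ := P.s1.lift hu
  obtain ⟨g, cg, -, eg⟩ := P.s2.lift ((hF.pow 2).sub hF)
  obtain ⟨c, hc⟩ := P.supp
  obtain ⟨r, r0, hr⟩ := P.ne
  refine ⟨f, cf, HasCompactSupport.intro (isCompact_closedBall 0 (max c 0)) fun x hx => ?_,
    fun h => hr ?_, rf, fun φ hφ cφ => ?_⟩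
  · rw [mem_closedBall_zero_iff, not_le, max_lt_iff] at hx
    rw [(ef x (norm_pos_iff.1 hx.2)).1, hc _ hx.1]
  · have n : ‖EuclideanSpace.single (0 : Fin (m + 1)) r‖ = r := by simp [abs_of_pos r0]
    rw [← n, ← (ef _ (norm_pos_iff.1 (n.symm ▸ r0))).1, h, Pi.zero_apply]
  · have ae : ∀ᵐ x : EuclideanSpace ℝ (Fin (m + 1)), x ≠ 0 := Measure.ae_ne _ _
    rw [integral_congr_ae (g := fun x => g x * Laplacian.laplacian φ x) (ae.mono fun x hx => by
        simp only [(ef x hx).2, (eg x hx).1, P.hG _ (norm_pos_iff.2 hx)]),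
      green_space cg hφ cφ, integral_congr_ae (g := fun x => (f x ^ 2 - f x) * φ x)
        (ae.mono fun x hx => by simp only [(ef x hx).1, (eg x hx).2]), neg_add_cancel]

end Pool.Agent.MP_6aeaf9_an.H21
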